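import Pool.Agent.H137R2.PFR.Final
import Pool.Agent.H112R2.Conv
set_option autoImplicit false

/-! Bridge between function laws (`H137.PFR`) and the group algebra (`H112`). -/

open scoped Classical

namespace W859.Tor

open H137.PFR

/-- group algebra -/
abbrev M (G : Type*) [AddCommGroup G] := AddMonoidAlgebra ℝ G

/-- push forward along a homomorphism -/
noncomputable def mp {G G' : Type*} [AddCommGroup G] [AddCommGroup G'] (φ : G →+ G') :
    M G →+* M G' := AddMonoidAlgebra.mapDomainRingHom ℝ φ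

/-- coefficients as a function -/
noncomputable def cf {G : Type*} [AddCommGroup G] (p : M G) : G → ℝ := fun x => p.coeff x

section

variable {G G' G'' : Type*} [AddCommGroup G] [AddCommGroup G'] [AddCommGroup G'']

theorem coeff_mp (φ : G →+ G') (p : M G) : (mp φ p).coeff = p.coeff.mapDomain φ := rfl

theorem mp_law (φ : G →+ G') {p : M G} (hp : H112.Law p) : H112.Law (mp φ p) := by
  unfold H112.Law
  rw [coeff_mp]
  exact H112.isLaw_mapDomain hp _

theorem mp_comp (φ : G →+ G') (ψ : G' →+ G'') (p : M G) : mp ψ (mp φ p) = mp (ψ.comp φ) p := by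
  apply AddMonoidAlgebra.coeff_injective
  rw [coeff_mp, coeff_mp, coeff_mp, ← Finsupp.mapDomain_comp]
  rfl

theorem mp_id (p : M G) : mp (AddMonoidHom.id G) p = p := by
  apply AddMonoidAlgebra.coeff_injective
  rw [coeff_mp]
  exact Finsupp.mapDomain_id

theorem H_mp_le (φ : G →+ G') {p : M G} (hp : H112.Law p) : H112.H (mp φ p) ≤ H112.H p := by
  unfold H112.H
  rw [coeff_mp]
  exact H112.ent_mapDomain_le hp _

theorem H_mp_inj (φ : G →+ G') (hφ : Function.Injective φ) (p : M G) :
    H112.H (mp φ p) = H112.H p := by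
  unfold H112.H
  rw [coeff_mp]
  exact H112.ent_mapDomain_of_injOn _ hφ.injOn

theorem mp_refl (φ : G →+ G') (p : M G) : mp φ (H112.refl p) = H112.refl (mp φ p) := by
  apply AddMonoidAlgebra.coeff_injective
  unfold H112.refl
  rw [coeff_mp, AddMonoidAlgebra.coeff_ofCoeff, AddMonoidAlgebra.coeff_ofCoeff, coeff_mp,
    ← Finsupp.mapDomain_comp, ← Finsupp.mapDomain_comp]
  congr 1
  funext x
  simp

end

section fin

variable {G G' : Type*} [AddCommGroup G] [Fintype G] [AddCommGroup G'] [Fintype G']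
variable {Ω Ω' : Type*} [Fintype Ω] [Fintype Ω']

theorem toF_cf (p : M G) : toF (cf p) = p.coeff := by
  ext x; rfl

theorem ent_cf (p : M G) : ent (cf p) = H112.H p := by
  rw [← ent_toF, toF_cf]; rfl

theorem law_cf {p : M G} (hp : H112.Law p) : Law (cf p) := by
  refine ⟨fun x => hp.1 x, ?_⟩
  have h := hp.2
  have h2 := toF_sum (cf p) (fun _ a => a) (fun _ => rfl)
  rw [toF_cf] at h2
  rw [← h2]; exact h

/-- the law of a random variable as an element of the group algebra -/
noncomputable def lw (w : Ω → ℝ) (X : Ω → G) : M G := AddMonoidAlgebra.ofCoeff (toF (push w X))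

theorem cf_lw (w : Ω → ℝ) (X : Ω → G) : cf (lw w X) = push w X := rfl

theorem lw_cf (p : M G) : lw (cf p) (fun x => x) = p := by
  apply AddMonoidAlgebra.coeff_injective
  have h : (lw (cf p) (fun x => x)).coeff = toF (push (cf p) (fun x => x)) := rfl
  rw [h, push_id]
  exact toF_cf p

theorem cf_injective {p q : M G} (h : cf p = cf q) : p = q := by
  rw [← lw_cf p, h, lw_cf]

theorem lw_law {w : Ω → ℝ} (hw : Law w) (X : Ω → G) : H112.Law (lw w X) :=
  isLaw_toF (law_push hw X)

theorem H_lw (w : Ω → ℝ) (X : Ω → G) : H w X = H112.H (lw w X) := by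
  rw [← ent_cf, cf_lw]; rfl

theorem cf_mul (p q : M G) : cf (p * q) = conv (cf p) (cf q) := by
  funext x
  unfold conv
  rw [push_eq_mapDomain]
  unfold cf
  rw [H112.coeff_mul]
  congr 2
  ext y
  rfl

theorem mp_lw (φ : G →+ G') (w : Ω → ℝ) (X : Ω → G) : mp φ (lw w X) = lw w (fun ω => φ (X ω)) := by
  apply AddMonoidAlgebra.coeff_injective
  rw [coeff_mp]
  unfold lw
  rw [AddMonoidAlgebra.coeff_ofCoeff, AddMonoidAlgebra.coeff_ofCoeff, ← toF_push, push_push]

theorem cf_mp (φ : G →+ G') (p : M G) : cf (mp φ p) = push (cf p) φ := by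
  conv_lhs => rw [← lw_cf p, mp_lw]
  rfl

theorem conv_cf_left (p : M G) (μ : G → ℝ) : conv μ (cf p) = cf (AddMonoidAlgebra.ofCoeff (toF μ) * p) := by
  rw [cf_mul]; rfl

/-- sum of independent variables -/
theorem lw_add {w : Ω → ℝ} {w' : Ω' → ℝ} (X : Ω → G) (Y : Ω' → G) :
    lw (prod w w') (fun p => X p.1 + Y p.2) = lw w X * lw w' Y := by
  apply cf_injective
  rw [cf_mul, cf_lw, cf_lw, cf_lw]
  unfold conv
  have h1 : prod (push w X) (push w' Y) = push (prod w w') (fun p => (X p.1, Y p.2)) := by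
    funext q
    obtain ⟨a, b⟩ := q
    rw [push_prod]
    rfl
  rw [h1, push_push]

theorem H_lw_add {w : Ω → ℝ} {w' : Ω' → ℝ} (X : Ω → G) (Y : Ω' → G) :
    H (prod w w') (fun p => X p.1 + Y p.2) = H112.H (lw w X * lw w' Y) := by
  rw [H_lw, lw_add]

theorem lw_hom (φ : G →+ G') (p : M G) : lw (cf p) (fun x => φ x) = mp φ p := by
  conv_rhs => rw [← lw_cf p, mp_lw]

end fin

end W859.Tor
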