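import Pool.Agent.W859.Tor.JB
set_option autoImplicit false
set_option linter.unusedSectionVars false

/-! Torsion: counting residues. -/

open scoped Classical

namespace W859.Tor

open H137.PFR

theorem prod_fib {ι N : Type*} [CommMonoid N] (I : Finset ι) (κ : ι → ℕ) (m : ℕ)
    (hκ : ∀ p ∈ I, κ p < m) (g : ℕ → N) :
    ∏ p ∈ I, g (κ p) = ∏ c ∈ Finset.range m, g c ^ (I.filter (fun p => κ p = c)).card := by
  rw [← Finset.prod_fiberwise_of_maps_to (g := κ) (t := Finset.range m)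
    (fun p hp => Finset.mem_range.2 (hκ p hp))]
  refine Finset.prod_congr rfl fun c _ => ?_
  rw [← Finset.prod_const]
  refine Finset.prod_congr rfl fun p hp => ?_
  rw [(Finset.mem_filter.1 hp).2]

theorem card_mod_le (n m v : ℕ) (hm : 0 < m) :
    ((Finset.range n).filter (fun i => i ≡ v [MOD m])).card ≤ n / m + 1 := by
  have h := Nat.count_modEq_card (b := n) hm v
  rw [Nat.count_eq_card_filter_range] at h
  rw [h]
  split_ifs <;> omega

theorem le_card_mod (n m v : ℕ) (hm : 0 < m) :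
    n / m ≤ ((Finset.range n).filter (fun i => i ≡ v [MOD m])).card := by
  have h := Nat.count_modEq_card (b := n) hm v
  rw [Nat.count_eq_card_filter_range] at h
  rw [h]
  split_ifs <;> omega

theorem cells_lower (n m c : ℕ) (hc : c < m) :
    n * (n / m) ≤ ((Finset.range n ×ˢ Finset.range n).filter (fun p => p.1 % m = c)).card := by
  have hm : 0 < m := by omega
  have h1 : (Finset.range n ×ˢ Finset.range n).filter (fun p : ℕ × ℕ => p.1 % m = c) =
      ((Finset.range n).filter (fun i => i ≡ c [MOD m])) ×ˢ Finset.range n := by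
    ext p
    simp only [Finset.mem_filter, Finset.mem_product, Nat.ModEq, Nat.mod_eq_of_lt hc]
    tauto
  rw [h1, Finset.card_product, Finset.card_range, mul_comm]
  exact Nat.mul_le_mul_right _ (le_card_mod n m c hm)

theorem cells_upper (n m c : ℕ) (hc : c < m) :
    ((Finset.range n ×ˢ Finset.range n).filter
      (fun p => (p.1 + (m - 1) * p.2) % m = c)).card ≤ n * (n / m + 1) := by
  have hm : 0 < m := by omega
  have h1 : (Finset.range n ×ˢ Finset.range n).filter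
      (fun p : ℕ × ℕ => (p.1 + (m - 1) * p.2) % m = c) ⊆
      (Finset.range n).biUnion (fun j => ((Finset.range n).filter
        (fun i => i ≡ c + j [MOD m])).image (fun i => (i, j))) := by
    intro p hp
    simp only [Finset.mem_filter, Finset.mem_product] at hp
    simp only [Finset.mem_biUnion, Finset.mem_image, Finset.mem_filter]
    refine ⟨p.2, hp.1.2, p.1, ⟨hp.1.1, ?_⟩, rfl⟩
    have h2 : p.1 + (m - 1) * p.2 ≡ c [MOD m] := by
      unfold Nat.ModEq
      rw [hp.2, Nat.mod_eq_of_lt hc]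
    have h3 := h2.add_right p.2
    have h4 : p.1 + (m - 1) * p.2 + p.2 = p.1 + m * p.2 := by
      obtain ⟨s, rfl⟩ : ∃ s, m = s + 1 := ⟨m - 1, by omega⟩
      simp only [Nat.add_sub_cancel]
      ring
    rw [h4] at h3
    have h5 : p.1 + m * p.2 ≡ p.1 [MOD m] := by
      unfold Nat.ModEq
      simp
    exact h5.symm.trans h3
  refine (Finset.card_le_card h1).trans (Finset.card_biUnion_le.trans ?_)
  calc ∑ j ∈ Finset.range n, (((Finset.range n).filter
        (fun i => i ≡ c + j [MOD m])).image (fun i => (i, j))).card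
      ≤ ∑ j ∈ Finset.range n, (n / m + 1) :=
        Finset.sum_le_sum fun j _ => Finset.card_image_le.trans (card_mod_le n m (c + j) hm)
    _ = n * (n / m + 1) := by rw [Finset.sum_const, Finset.card_range, smul_eq_mul]

namespace Mn

variable {V : Type*} [AddCommGroup V] [Fintype V] (c : Mn V)

theorem mod_smul {m : ℕ} (hm : ∀ x : V, m • x = 0) (n : ℕ) (x : V) : (n % m) • x = n • x := by
  conv_rhs => rw [← Nat.div_add_mod n m, add_smul, mul_smul, hm, zero_add]

theorem v2_mod {m : ℕ} (hm : ∀ x : V, m • x = 0) (n : ℕ) : v2 (V := V) (n % m) = v2 n := by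
  ext x
  · simp [v2, mod_smul hm]
  · simp [v2]

/-- `(x, y, z) ↦ (x - y, z)` -/
def πZ (V : Type*) [AddCommGroup V] : V × V × V →+ V × V where
  toFun p := (p.1 - p.2.1, p.2.2)
  map_zero' := by simp
  map_add' p q := by
    refine Prod.ext ?_ rfl
    simp only [Prod.fst_add, Prod.snd_add]
    abel

theorem πZ_v3 {m : ℕ} (hm0 : 0 < m) (hm : ∀ x : V, m • x = 0) (i j : ℕ) :
    (πZ V).comp (v3 i j) = v2 ((i + (m - 1) * j) % m) := by
  rw [v2_mod hm]
  ext x
  · change i • x - j • x = (i + (m - 1) * j) • x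
    rw [add_smul, mul_smul]
    have h1 : (m - 1) • (j • x) = - (j • x) := by
      have h2 := hm (j • x)
      obtain ⟨s, rfl⟩ : ∃ s, m = s + 1 := ⟨m - 1, by omega⟩
      rw [add_smul, one_smul] at h2
      simp only [Nat.add_sub_cancel]
      exact eq_neg_of_add_eq_zero_left h2
    rw [h1, sub_eq_add_neg]
  · rfl

theorem PZ_eq {m : ℕ} (hm0 : 0 < m) (hm : ∀ x : V, m • x = 0) (r : ℕ) :
    mp (πZ V) (c.P r r) = ∏ a ∈ Finset.range m, mp (v2 a) c.q ^
      ((Finset.range (2 ^ r) ×ˢ Finset.range (2 ^ r)).filter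
        (fun p => (p.1 + (m - 1) * p.2) % m = a)).card := by
  rw [← prod_fib (Finset.range (2 ^ r) ×ˢ Finset.range (2 ^ r))
    (fun p => (p.1 + (m - 1) * p.2) % m) m (fun p _ => Nat.mod_lt _ hm0)
    (fun a => mp (v2 a) c.q), Finset.prod_product]
  unfold P
  rw [map_prod]
  refine Finset.prod_congr rfl fun i _ => ?_
  rw [map_prod]
  refine Finset.prod_congr rfl fun j _ => ?_
  rw [mp_comp, πZ_v3 hm0 hm]

theorem B2_eq {m : ℕ} (hm0 : 0 < m) (hm : ∀ x : V, m • x = 0) (r : ℕ) :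
    c.B2 r r = ∏ a ∈ Finset.range m, mp (v2 a) c.q ^
      ((Finset.range (2 ^ r) ×ˢ Finset.range (2 ^ r)).filter
        (fun p => p.1 % m = a)).card := by
  rw [← prod_fib (Finset.range (2 ^ r) ×ˢ Finset.range (2 ^ r))
    (fun p => p.1 % m) m (fun p _ => Nat.mod_lt _ hm0)
    (fun a => mp (v2 a) c.q), Finset.prod_product]
  unfold B2
  refine Finset.prod_congr rfl fun i _ => ?_
  change _ = ∏ y ∈ Finset.range (2 ^ r), mp (v2 (i % m)) c.q
  rw [Finset.prod_const, Finset.card_range, v2_mod hm]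

theorem v2_inj (a : ℕ) : Function.Injective (v2 (V := V) a) := by
  intro x y h
  have h1 : (a • x, x) = (a • y, y) := h
  exact (Prod.mk.inj h1).2

theorem H_v2_pow (a n : ℕ) : H112.H (mp (v2 a) c.q ^ n) = H112.H (c.q ^ n) := by
  rw [← map_pow]
  exact H_mp_inj _ (v2_inj a) _

theorem law_v2_pow (a n : ℕ) : H112.Law (mp (v2 a) c.q ^ n) := (mp_law _ c.lq).pow n

theorem law_v2_prod (I : Finset ℕ) (N : ℕ → ℕ) :
    H112.Law (∏ a ∈ I, mp (v2 a) c.q ^ N a) :=
  (Cl.prod _ fun _ _ => (Cl.of _).pow _ : Cl c _).law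

theorem H_mono (I : Finset ℕ) (N N' : ℕ → ℕ) (h : ∀ a ∈ I, N a ≤ N' a) :
    H112.H (∏ a ∈ I, mp (v2 a) c.q ^ N a) ≤ H112.H (∏ a ∈ I, mp (v2 a) c.q ^ N' a) := by
  have e : ∏ a ∈ I, mp (v2 a) c.q ^ N' a =
      (∏ a ∈ I, mp (v2 a) c.q ^ N a) * ∏ a ∈ I, mp (v2 a) c.q ^ (N' a - N a) := by
    rw [← Finset.prod_mul_distrib]
    refine Finset.prod_congr rfl fun a ha => ?_
    rw [← pow_add, Nat.add_sub_cancel' (h a ha)]
  rw [e]
  exact H112.H_le_mul (c.law_v2_prod I N) (c.law_v2_prod I fun a => N' a - N a)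

theorem H_inc (I : Finset ℕ) (A n : ℕ) (y : M (V × V)) (hy : H112.Law y) :
    H112.H ((∏ a ∈ I, mp (v2 a) c.q ^ (A + n)) * y) ≤
      H112.H ((∏ a ∈ I, mp (v2 a) c.q ^ A) * y) +
        I.card * (H112.H (c.q ^ (A + n)) - H112.H (c.q ^ A)) := by
  induction I using Finset.induction_on generalizing y with
  | empty => simp
  | insert a I ha ih =>
    rw [Finset.prod_insert ha, Finset.prod_insert ha, Finset.card_insert_of_notMem ha]
    have h1 := ih (mp (v2 a) c.q ^ (A + n) * y) ((c.law_v2_pow a (A + n)).mul hy)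
    have h2 := H112.H_submod (c.law_v2_pow a n) (c.law_v2_pow a A)
      ((c.law_v2_prod I fun _ => A).mul hy)
    rw [← pow_add, add_comm n A, c.H_v2_pow, c.H_v2_pow] at h2
    have e1 : (∏ x ∈ I, mp (v2 x) c.q ^ (A + n)) * (mp (v2 a) c.q ^ (A + n) * y) =
        mp (v2 a) c.q ^ (A + n) * (∏ x ∈ I, mp (v2 x) c.q ^ (A + n)) * y := by ring
    have e2 : (∏ x ∈ I, mp (v2 x) c.q ^ A) * (mp (v2 a) c.q ^ (A + n) * y) =
        mp (v2 a) c.q ^ (A + n) * ((∏ x ∈ I, mp (v2 x) c.q ^ A) * y) := by ring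
    have e3 : mp (v2 a) c.q ^ A * ((∏ x ∈ I, mp (v2 x) c.q ^ A) * y) =
        mp (v2 a) c.q ^ A * (∏ x ∈ I, mp (v2 x) c.q ^ A) * y := by ring
    rw [e1, e2] at h1
    rw [e3] at h2
    push_cast
    linarith

theorem conc (n v : ℕ) : H112.H (c.q ^ (n * (v + 2))) + H112.H (c.q ^ (n * v)) ≤
    2 * H112.H (c.q ^ (n * (v + 1))) := by
  have h := H112.H_submod (c.law_pow n) (c.law_pow (n * v)) (c.law_pow n)
  have e1 : c.q ^ n * c.q ^ (n * v) * c.q ^ n = c.q ^ (n * (v + 2)) := by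
    rw [← pow_add, ← pow_add]; congr 1; ring
  have e2 : c.q ^ n * c.q ^ (n * v) = c.q ^ (n * (v + 1)) := by
    rw [← pow_add]; congr 1; ring
  have e3 : c.q ^ (n * v) * c.q ^ n = c.q ^ (n * (v + 1)) := by
    rw [← pow_add]; congr 1
  rw [e1, e2, e3] at h
  linarith

theorem conc_sum (n u : ℕ) : (u : ℝ) * (H112.H (c.q ^ (n * (u + 2))) -
    H112.H (c.q ^ (n * (u + 1)))) ≤ H112.H (c.q ^ (n * (u + 1))) - H112.H (c.q ^ (n * 1)) := by
  induction u with
  | zero => simp
  | succ u ih =>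
    have h := c.conc n (u + 1)
    have e1 : n * (u + 1 + 2) = n * (u + 1 + 2) := rfl
    have e2 : u + 1 + 1 = u + 2 := rfl
    rw [e2] at h ⊢
    have hu : (0 : ℝ) ≤ u := Nat.cast_nonneg u
    have h2 := mul_le_mul_of_nonneg_left
      (show H112.H (c.q ^ (n * (u + 1 + 2))) - H112.H (c.q ^ (n * (u + 2))) ≤
        H112.H (c.q ^ (n * (u + 2))) - H112.H (c.q ^ (n * (u + 1))) by linarith)
      (show (0 : ℝ) ≤ (u : ℝ) + 1 by linarith)
    push_cast
    linarith

/-- the difference of the two weighted sums is hardly bigger than one of them -/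
theorem delta {m r : ℕ} (hm0 : 0 < m) (hm : ∀ x : V, m • x = 0) (hr : 1 ≤ r)
    (hu : 60 * m * r + 2 ≤ 2 ^ r / m) (h1 : (1 + 4 * c.η) ^ (2 * r) ≤ 2) :
    H112.H (mp (πZ V) (c.P r r)) ≤ H112.H (c.B2 r r) + c.k / 10 := by
  obtain ⟨n, hn⟩ : ∃ n, n = 2 ^ r := ⟨_, rfl⟩
  obtain ⟨u, hu'⟩ : ∃ u, 2 ^ r / m = u + 1 := ⟨2 ^ r / m - 1, by omega⟩
  have hk := c.k_nonneg
  have hn1 : 1 ≤ n := by rw [hn]; exact Nat.one_le_two_pow
  rw [hu'] at hu
  have hun : u + 1 ≤ n := by
    rw [← hu', hn]; exact Nat.div_le_self _ _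
  have hΔ0 : 0 ≤ H112.H (c.q ^ (n * (u + 2))) - H112.H (c.q ^ (n * (u + 1))) := by
    have : c.q ^ (n * (u + 2)) = c.q ^ (n * (u + 1)) * c.q ^ n := by
      rw [← pow_add]; congr 1
    rw [this]
    linarith [H112.H_le_mul (c.law_pow (n * (u + 1))) (c.law_pow n)]
  -- comparison
  have a1 : H112.H (mp (πZ V) (c.P r r)) ≤
      H112.H (∏ a ∈ Finset.range m, mp (v2 a) c.q ^ (n * (u + 1) + n)) := by
    rw [c.PZ_eq hm0 hm]
    apply c.H_mono
    intro a ha
    have := cells_upper (2 ^ r) m a (Finset.mem_range.1 ha)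
    rw [hu', ← hn] at this
    rw [← hn]
    refine this.trans (le_of_eq ?_)
    ring
  have a2 : H112.H (∏ a ∈ Finset.range m, mp (v2 a) c.q ^ (n * (u + 1))) ≤
      H112.H (c.B2 r r) := by
    rw [c.B2_eq hm0 hm]
    apply c.H_mono
    intro a ha
    have := cells_lower (2 ^ r) m a (Finset.mem_range.1 ha)
    rw [hu', ← hn] at this
    rw [← hn]
    exact this
  have a3 := c.H_inc (Finset.range m) (n * (u + 1)) n 1 H112.Law.one
  rw [mul_one, mul_one, Finset.card_range] at a3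
  have e1 : n * (u + 1) + n = n * (u + 2) := by ring
  rw [e1] at a1 a3
  have a4 := c.conc_sum n u
  -- the size of the increments
  have b1 : H112.H (c.q ^ (n * (u + 1))) ≤ c.h + 6 * r * c.k := by
    have b2 := c.S_bound (r := r) (m := 2 * r) hr le_rfl h1
    have b3 : H112.H (c.q ^ (n * (u + 1))) ≤ H112.H (c.q ^ 2 ^ (2 * r)) := by
      have e2 : 2 ^ (2 * r) = n * n := by rw [hn, two_mul, pow_add]
      have e3 : c.q ^ 2 ^ (2 * r) = c.q ^ (n * (u + 1)) * c.q ^ (n * n - n * (u + 1)) := by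
        rw [← pow_add, e2]
        congr 1
        have := Nat.mul_le_mul_left n hun
        omega
      rw [e3]
      exact H112.H_le_mul (c.law_pow _) (c.law_pow _)
    linarith
  have b4 : c.h ≤ H112.H (c.q ^ (n * 1)) := by
    have e3 : c.q ^ (n * 1) = c.q * c.q ^ (n - 1) := by
      rw [← pow_succ']
      congr 1
      omega
    have := H112.H_le_mul c.lq (c.law_pow (n - 1))
    rw [← e3, c.H_q] at this
    linarith
  set Δ := H112.H (c.q ^ (n * (u + 2))) - H112.H (c.q ^ (n * (u + 1))) with hΔ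
  have hur : (60 * m * r : ℝ) ≤ u := by
    have : 60 * m * r ≤ u := by omega
    exact_mod_cast this
  have hr0 : (0 : ℝ) < r := by exact_mod_cast hr
  have b5 : (60 * m * r : ℝ) * Δ ≤ 6 * r * c.k := by
    have := mul_le_mul_of_nonneg_right hur hΔ0
    linarith
  have b6 : (m : ℝ) * Δ ≤ c.k / 10 := by
    have : (60 * r : ℝ) * (m * Δ) ≤ (60 * r) * (c.k / 10) := by
      have e5 : (60 * r : ℝ) * (m * Δ) = (60 * m * r : ℝ) * Δ := by ring
      have e6 : (60 * r : ℝ) * (c.k / 10) = 6 * r * c.k := by ring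
      rw [e5, e6]; exact b5
    exact le_of_mul_le_mul_left this (by positivity)
  linarith

theorem B2_ge (a b : ℕ) : 2 * H112.H c.q ≤ H112.H (c.B2 (a + 1) b) := by
  have h0 : 0 ∈ Finset.range (2 ^ (a + 1)) := by
    rw [Finset.mem_range]; positivity
  have h1 : 1 ∈ (Finset.range (2 ^ (a + 1))).erase 0 := by
    rw [Finset.mem_erase, Finset.mem_range]
    refine ⟨one_ne_zero, ?_⟩
    calc 1 < 2 ^ 1 := by norm_num
      _ ≤ 2 ^ (a + 1) := Nat.pow_le_pow_right (by norm_num) (by omega)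
  have e1 : c.B2 (a + 1) b = (mp (v2 0) c.q * mp (v2 1) c.q) *
      ((∏ i ∈ ((Finset.range (2 ^ (a + 1))).erase 0).erase 1,
      (mp (v2 i) c.q) ^ 2 ^ b) * ((mp (v2 0) c.q) ^ (2 ^ b - 1) *
        (mp (v2 1) c.q) ^ (2 ^ b - 1))) := by
    unfold B2
    rw [← Finset.mul_prod_erase _ _ h0, ← Finset.mul_prod_erase _ _ h1]
    have e2 : 2 ^ b = (2 ^ b - 1) + 1 := by
      have := Nat.one_le_two_pow (n := b)
      omega
    have e3 : ∀ x : M (V × V), x ^ 2 ^ b = x ^ (2 ^ b - 1) * x := by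
      intro x
      conv_lhs => rw [e2, pow_succ]
    rw [e3 (mp (v2 0) c.q), e3 (mp (v2 1) c.q)]
    ring
  have e2 : H112.H (mp (v2 0) c.q * mp (v2 1) c.q) = H112.H c.q + H112.H c.q := by
    apply H_direct _ _ _ c.lq c.lq
    intro x y hxy
    have h2 : ((0 : ℕ) • x + (1 : ℕ) • y, x + y) = ((0 : V), (0 : V)) := hxy
    rw [Prod.mk.injEq, zero_smul, one_smul, zero_add] at h2
    obtain ⟨h3, h4⟩ := h2
    rw [h3, add_zero] at h4
    exact ⟨h4, h3⟩
  rw [e1, two_mul, ← e2]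
  refine H112.H_le_mul ((mp_law _ c.lq).mul (mp_law _ c.lq)) ?_
  exact ((Cl.prod _ fun _ _ => (Cl.of _).pow _).mul
    (((Cl.of _).pow _).mul ((Cl.of _).pow _)) : Cl c _).law

/-- the distance of the minimising pair vanishes -/
theorem k_eq_zero {m r : ℕ} (hm0 : 0 < m) (hm : ∀ x : V, m • x = 0) (hr : 1 ≤ r)
    (hu : 60 * m * r + 2 ≤ 2 ^ r / m) (hη : c.η = 1 / (2000 * (r : ℝ) ^ 2)) : c.k = 0 := by
  have hk := c.k_nonneg
  have hr1 : (1 : ℝ) ≤ r := by exact_mod_cast hr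
  have hη0 : 0 < c.η := by rw [hη]; positivity
  have hηr : c.η * r ^ 2 = 1 / 2000 := by
    rw [hη]; field_simp
  have hηr1 : c.η * r ≤ 1 / 2000 := by
    rw [← hηr]
    apply mul_le_mul_of_nonneg_left _ hη0.le
    nlinarith
  have hη1 : c.η ≤ 1 / 2000 := by nlinarith
  have h1 : (1 + 4 * c.η) ^ (2 * r) ≤ 2 := by
    have e1 : 1 + 4 * c.η ≤ Real.exp (4 * c.η) := by
      have := Real.add_one_le_exp (4 * c.η)
      linarith
    calc (1 + 4 * c.η) ^ (2 * r) ≤ (Real.exp (4 * c.η)) ^ (2 * r) :=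
          pow_le_pow_left₀ (by linarith) e1 _
      _ = Real.exp ((2 * r : ℕ) * (4 * c.η)) := by rw [← Real.exp_nat_mul]
      _ ≤ Real.exp (Real.log 2) := by
          apply Real.exp_le_exp.2
          have := Real.log_two_gt_d9
          push_cast
          nlinarith
      _ = 2 := Real.exp_log (by norm_num)
  have h2 : 4 * r * c.η ≤ 1 := by linarith
  obtain ⟨s, hs⟩ : ∃ s, r = s + 1 := ⟨r - 1, by omega⟩
  have j1 := c.J_bound hr h1 h2
  have j2 := c.delta hm0 hm hr hu h1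
  have j3 := c.S_bound (r := r) (m := r + r) hr (by omega) h1
  have j4 : H112.H (c.t r r) - c.h ≤ 20 * r * c.k := by
    have := c.t_bound (r := r) (a := s) (b := r) (N := r + r - 1) (by omega) (by omega)
      (by omega) h1 h2
    rw [← hs] at this
    exact this
  have j5 : 2 * (c.h + c.k) ≤ H112.H (c.B2 r r) := by
    have := c.B2_ge s r
    rw [← hs, c.H_q] at this
    exact this
  -- the endgame
  set Q := c.P r r with hQ
  have lQ : H112.Law Q := (c.Cl_P _ _).law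
  have hw := law_cf lQ
  have x1 : lw (cf Q) (fun p : V × V × V => p.1) = c.t r r := by
    rw [← P_1]; exact lw_hom (π1 V) Q
  have x2 : lw (cf Q) (fun p : V × V × V => p.2.1) = c.t r r := by
    rw [← P_2]; exact lw_hom (π2 V) Q
  have x3 : lw (cf Q) (fun p : V × V × V => p.2.2) = c.q ^ 2 ^ (r + r) := by
    rw [← P_3]; exact lw_hom (π3 V) Q
  have x13 : lw (cf Q) (fun p : V × V × V => (p.1, p.2.2)) = c.B2 r r := by
    rw [← P_13]; exact lw_hom (π13 V) Q
  have x23 : lw (cf Q) (fun p : V × V × V => (p.2.1, p.2.2)) = c.B2 r r := by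
    rw [← P_23]; exact lw_hom (π23 V) Q
  have x0 : lw (cf Q) (fun p : V × V × V => (p.1, p.2.1, p.2.2)) = Q := lw_cf Q
  have xZ : lw (cf Q) (fun p : V × V × V => (p.1 - p.2.1, p.2.2)) = mp (πZ V) Q :=
    lw_hom (πZ V) Q
  have hd : c.Dv (c.t r r) := by rw [hs]; exact c.Dv_t _ _
  have e := c.endgame hw (fun p : V × V × V => p.1) (fun p => p.2.1) (fun p => p.2.2)
    (by rw [x1]; exact hd) (by rw [x2]; exact hd)
  simp only [H_lw] at e
  rw [x0, x13, x23, xZ, x1, x2, x3] at e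
  have hJ : c.J r r = H112.H (c.B2 r r) + H112.H (c.B2 r r) - H112.H Q -
      H112.H (c.q ^ 2 ^ (r + r)) := rfl
  set δ := H112.H (mp (πZ V) Q) - H112.H (c.B2 r r) with hδ
  -- bound of the `η` term
  have f1 : H112.H (c.t r r) + H112.H (c.t r r) - c.h -
      (H112.H Q - H112.H (mp (πZ V) Q)) ≤ 46 * r * c.k + c.J r r + δ := by
    have : H112.H Q = 2 * H112.H (c.B2 r r) - H112.H (c.q ^ 2 ^ (r + r)) - c.J r r := by
      rw [hJ]; ring
    rw [this]
    linarith
  have f2 := mul_le_mul_of_nonneg_left f1 hη0.le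
  have f3 : c.J r r ≤ 416 / 2000 * c.k := by
    refine j1.trans (le_of_eq ?_)
    calc 416 * c.η * (r : ℝ) ^ 2 * c.k = 416 * (c.η * r ^ 2) * c.k := by ring
      _ = _ := by rw [hηr]; ring
  have f4 : δ ≤ c.k / 10 := by linarith
  have f5 : c.η * (46 * r * c.k) ≤ 46 / 2000 * c.k := by
    calc c.η * (46 * r * c.k) = 46 * (c.η * r) * c.k := by ring
      _ ≤ 46 * (1 / 2000) * c.k := by gcongr
      _ = _ := by ring
  have f6 : c.η * (c.J r r + δ) ≤ 1 / 2000 * c.k := by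
    have : c.J r r + δ ≤ c.k := by linarith
    calc c.η * (c.J r r + δ) ≤ c.η * c.k := mul_le_mul_of_nonneg_left this hη0.le
      _ ≤ 1 / 2000 * c.k := mul_le_mul_of_nonneg_right hη1 hk
  have f7 : c.η * (46 * r * c.k + c.J r r + δ) = c.η * (46 * r * c.k) + c.η * (c.J r r + δ) := by
    ring
  rw [f7] at f2
  have e2 : 2 * H112.H (c.B2 r r) + 2 * H112.H (c.B2 r r) - 3 * H112.H (c.q ^ 2 ^ (r + r)) -
      3 * H112.H Q + 2 * H112.H (mp (πZ V) Q) = 3 * c.J r r + 2 * δ := by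
    rw [hJ, hδ]; ring
  rw [e2] at e
  have hfin : c.k ≤ (3 * (416 / 2000) + 2 / 10 + 46 / 2000 + 1 / 2000) * c.k := by linarith
  have : (3 * (416 / 2000) + 2 / 10 + 46 / 2000 + 1 / 2000 : ℝ) < 1 := by norm_num
  nlinarith

end Mn

end W859.Tor
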