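import Pool.Agent.W859.Tor.LB
set_option autoImplicit false
set_option linter.unusedSectionVars false

/-! Decoupling and the size of weighted sums. -/

open scoped Classical

namespace W859.Tor

open H137.PFR

section gen

variable {G G' : Type*} [AddCommGroup G] [Fintype G] [AddCommGroup G'] [Fintype G']
variable {Ω : Type*} [Fintype Ω]

/-- entropic Ruzsa distance of a law to itself -/
noncomputable def dd (p : M G) : ℝ := H112.H (p * H112.refl p) - H112.H p

theorem lw_neg (w : Ω → ℝ) (X : Ω → G) : lw w (fun ω => -X ω) = H112.refl (lw w X) := by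
  have h := mp_lw (-(AddMonoidHom.id G)) w X
  have e : (fun ω => (-(AddMonoidHom.id G)) (X ω)) = fun ω => -X ω := rfl
  rw [e] at h
  rw [← h]
  apply AddMonoidAlgebra.coeff_injective
  unfold H112.refl
  rw [coeff_mp, AddMonoidAlgebra.coeff_ofCoeff]
  rfl

/-- decoupling -/
theorem decouple {w : Ω → ℝ} (hw : Law w) (O A : Ω → G) :
    H w (fun ω => O ω + A ω) ≤ H112.H (lw w O * lw w A) + dd (lw w A) := by
  have hww := law_prod hw hw
  have h1 := H_submod hww (fun p : Ω × Ω => O p.1 + A p.2) (fun p => (O p.1, A p.1))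
    (fun p => O p.1 + A p.1)
  have e1 : H (prod w w) (fun p => (O p.1 + A p.2, (O p.1, A p.1), O p.1 + A p.1)) =
      H w (fun ω => (O ω, A ω)) + H w A := by
    rw [← H_prod hw hw (fun ω => (O ω, A ω)) A]
    exact H_eq hww (fun a => (a.2.1, a.1 - a.2.1.1)) (fun a => (a.1.1 + a.2, a.1, a.1.1 + a.1.2))
      (fun p => by simp) (fun p => rfl)
  have e2 : H (prod w w) (fun p => ((O p.1, A p.1), O p.1 + A p.1)) =
      H w (fun ω => (O ω, A ω)) := by
    rw [← H_prod_fst hw hw (fun ω => (O ω, A ω))]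
    exact H_eq hww (fun a => a.1) (fun a => (a, a.1 + a.2)) (fun p => rfl) (fun p => rfl)
  have e3 : H (prod w w) (fun p => O p.1 + A p.1) = H w (fun ω => O ω + A ω) :=
    H_prod_fst hw hw (fun ω => O ω + A ω)
  have e4 : H (prod w w) (fun p => (O p.1 + A p.2, O p.1 + A p.1)) =
      H (prod w w) (fun p => (O p.1 + A p.2, A p.1 + -A p.2)) :=
    H_eq hww (fun a => (a.1, a.2 - a.1)) (fun a => (a.1, a.2 + a.1))
      (fun p => by simp only [Prod.mk.injEq, true_and]; abel)
      (fun p => by simp only [Prod.mk.injEq, true_and]; abel)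
  have e5 := H_subadd hww (fun p => O p.1 + A p.2) (fun p => A p.1 + -A p.2)
  have e6 := H_lw_add (w := w) (w' := w) O A
  have e7 := H_lw_add (w := w) (w' := w) A (fun ω => -A ω)
  rw [lw_neg] at e7
  rw [e1, e2, e3, e4] at h1
  rw [e6, e7] at e5
  have e8 := H_lw w A
  unfold dd
  linarith

theorem dd_mp (φ : G →+ G') {p : M G} (hp : H112.Law p) : dd (mp φ p) ≤ dd p := by
  have hl := law_cf hp
  have hll := law_prod hl hl
  have h1 := H_submod hll (fun x : G × G => x.1 + -x.2) (fun x => (φ x.1, x.2))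
    (fun x => φ x.1 + -φ x.2)
  have e1 : H (prod (cf p) (cf p)) (fun x : G × G => (x.1 + -x.2, (φ x.1, x.2), φ x.1 + -φ x.2)) =
      2 * H112.H p := by
    have h2 := H_prod hl hl (fun x => x) (fun x => x)
    rw [H_lw (cf p), lw_cf] at h2
    rw [two_mul, ← h2]
    exact H_eq hll (fun a => (a.1 + a.2.1.2, a.2.1.2))
      (fun a => (a.1 + -a.2, (φ a.1, a.2), φ a.1 + -φ a.2))
      (fun x => by simp) (fun x => rfl)
  have e2 : H (prod (cf p) (cf p)) (fun x : G × G => (x.1 + -x.2, φ x.1 + -φ x.2)) =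
      H (prod (cf p) (cf p)) (fun x : G × G => x.1 + -x.2) :=
    H_eq hll (fun a => a.1) (fun a => (a, φ a)) (fun x => rfl) (fun x => by simp)
  have e3 : H (prod (cf p) (cf p)) (fun x : G × G => ((φ x.1, x.2), φ x.1 + -φ x.2)) =
      H112.H (mp φ p) + H112.H p := by
    have h2 := H_prod hl hl (fun x => φ x) (fun x => x)
    rw [H_lw (cf p) (fun x => x), lw_cf, H_lw (cf p), lw_hom] at h2
    rw [← h2]
    exact H_eq hll (fun a => a.1) (fun a => (a, a.1 + -φ a.2)) (fun x => rfl) (fun x => rfl)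
  have e4 := H_lw_add (w := cf p) (w' := cf p) (fun x => x) (fun x => -x)
  have e5 := H_lw_add (w := cf p) (w' := cf p) (fun x => φ x) (fun x => -φ x)
  rw [lw_neg, lw_cf] at e4
  rw [lw_neg, lw_hom] at e5
  rw [e1, e2, e3, e4, e5] at h1
  unfold dd
  linarith

theorem dd_le {p : M G} (hp : H112.Law p) : dd p ≤ 2 * (H112.H (p * p) - H112.H p) := by
  have := H112.H_ruzsa hp hp hp
  unfold dd
  linarith

/-- `H(B + 2A) ≤ H(B + A + A') + d(A, A)` -/
theorem H_double {a b : M G} (ha : H112.Law a) (hb : H112.Law b) :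
    H112.H (b * mp (nsmulAddMonoidHom 2) a) ≤ H112.H (b * a * a) + dd a := by
  have hl := law_prod (law_cf hb) (law_cf ha)
  have h1 := decouple hl (fun p : G × G => p.1 + p.2) (fun p => p.2)
  have e1 : lw (prod (cf b) (cf a)) (fun p : G × G => p.1 + p.2) = b * a := by
    have := lw_add (w := cf b) (w' := cf a) (fun x => x) (fun x => x)
    rw [lw_cf, lw_cf] at this
    exact this
  have e2 : lw (prod (cf b) (cf a)) (fun p : G × G => p.2) = a := by
    apply cf_injective
    rw [cf_lw, push_snd (law_cf hb)]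
  have e3 : lw (prod (cf b) (cf a)) (fun p : G × G => p.1 + p.2 + p.2) =
      b * mp (nsmulAddMonoidHom 2) a := by
    have := lw_add (w := cf b) (w' := cf a) (fun x => x) (fun x => (nsmulAddMonoidHom 2) x)
    rw [lw_cf, lw_hom] at this
    rw [← this]
    congr 1
    funext p
    simp only [nsmulAddMonoidHom_apply, two_nsmul, add_assoc]
  rw [H_lw, e1, e2, e3] at h1
  exact h1

/-- `H(N + T + nS) ≤ H(N + T + nS') + d(nS, nS)` -/
theorem H_shift {B : M (G × G)} {ν : M G} (hB : H112.Law B) (hν : H112.Law ν) (n : ℕ) :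
    H112.H (ν * mp (AddMonoidHom.fst G G + (nsmulAddMonoidHom n).comp (AddMonoidHom.snd G G)) B) ≤
      H112.H (ν * mp (AddMonoidHom.fst G G) B *
        mp (nsmulAddMonoidHom n) (mp (AddMonoidHom.snd G G) B)) +
        dd (mp (nsmulAddMonoidHom n) (mp (AddMonoidHom.snd G G) B)) := by
  have hl := law_prod (law_cf hν) (law_cf hB)
  have h1 := decouple hl (fun p : G × (G × G) => p.1 + p.2.1) (fun p => n • p.2.2)
  have e1 : lw (prod (cf ν) (cf B)) (fun p : G × (G × G) => p.1 + p.2.1) =
      ν * mp (AddMonoidHom.fst G G) B := by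
    have := lw_add (w := cf ν) (w' := cf B) (fun x => x) (fun x => (AddMonoidHom.fst G G) x)
    rw [lw_cf, lw_hom] at this
    exact this
  have e2 : lw (prod (cf ν) (cf B)) (fun p : G × (G × G) => n • p.2.2) =
      mp (nsmulAddMonoidHom n) (mp (AddMonoidHom.snd G G) B) := by
    rw [mp_comp]
    apply cf_injective
    rw [cf_lw]
    have h2 := congrFun (congrArg push (rfl : prod (cf ν) (cf B) = prod (cf ν) (cf B)))
      (fun p : G × (G × G) => ((nsmulAddMonoidHom n).comp (AddMonoidHom.snd G G)) p.2)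
    have h3 : push (prod (cf ν) (cf B))
        (fun p : G × (G × G) => ((nsmulAddMonoidHom n).comp (AddMonoidHom.snd G G)) p.2) =
        push (cf B) ((nsmulAddMonoidHom n).comp (AddMonoidHom.snd G G)) := by
      have h4 := push_push (prod (cf ν) (cf B)) (fun p : G × (G × G) => p.2)
        ((nsmulAddMonoidHom n).comp (AddMonoidHom.snd G G))
      rw [push_snd (law_cf hν)] at h4
      exact h4.symm
    rw [cf_mp, ← h3]
    rfl
  have e3 : lw (prod (cf ν) (cf B)) (fun p : G × (G × G) => p.1 + p.2.1 + n • p.2.2) =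
      ν * mp (AddMonoidHom.fst G G + (nsmulAddMonoidHom n).comp (AddMonoidHom.snd G G)) B := by
    have := lw_add (w := cf ν) (w' := cf B) (fun x => x)
      (fun x => (AddMonoidHom.fst G G + (nsmulAddMonoidHom n).comp (AddMonoidHom.snd G G)) x)
    rw [lw_cf, lw_hom] at this
    rw [← this]
    congr 1
    funext p
    simp only [AddMonoidHom.add_apply, AddMonoidHom.coe_fst, AddMonoidHom.comp_apply,
      AddMonoidHom.coe_snd, nsmulAddMonoidHom_apply, add_assoc]
  rw [H_lw, e1, e2, e3] at h1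
  exact h1

end gen

end W859.Tor
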