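import Pool.Agent.W859.Tor.Count
import Pool.Agent.H375R3.Tor.Base
set_option autoImplicit false
set_option linter.unusedSectionVars false

/-! Entropic and combinatorial conclusions for groups of bounded exponent. -/

open scoped Classical

namespace W859.Tor

open H137.PFR

theorem cf_of {V : Type*} [AddCommGroup V] [Fintype V] (μ : V → ℝ) :
    cf (AddMonoidAlgebra.ofCoeff (toF μ)) = μ := rfl

/-- entropic Marton theorem for groups of exponent `m` -/
theorem ent_pfr {V : Type*} [AddCommGroup V] [Fintype V] {m r : ℕ} (hm0 : 0 < m)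
    (hm : ∀ x : V, m • x = 0) (hr : 1 ≤ r) (hu : 60 * m * r + 2 ≤ 2 ^ r / m)
    {μ : V → ℝ} (hμ : Law μ) :
    ∃ G : AddSubgroup V, entMod μ G ≤ (2000 * (r : ℝ) ^ 2 + 2) * (ent (conv μ μ) - ent μ) ∧
      |Real.log (Nat.card G) - ent μ| ≤
        (2000 * (r : ℝ) ^ 2 + 2) * (ent (conv μ μ) - ent μ) := by
  have hr1 : (1 : ℝ) ≤ r := by exact_mod_cast hr
  set η : ℝ := 1 / (2000 * (r : ℝ) ^ 2) with hη
  have hη0 : 0 < η := by rw [hη]; positivity
  obtain ⟨μ₁, μ₂, hμ₁, hμ₂, hmin⟩ := exists_minF η μ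
  let c : Mn V :=
    { η := η
      hη := hη0.le
      μ₀ := μ
      h0 := hμ
      p₁ := AddMonoidAlgebra.ofCoeff (toF μ₁)
      p₂ := AddMonoidAlgebra.ofCoeff (toF μ₂)
      l₁ := isLaw_toF hμ₁
      l₂ := isLaw_toF hμ₂
      hmin := hmin }
  have hk : c.k = 0 := c.k_eq_zero hm0 hm hr hu rfl
  have hd : H137.PFR.dist μ₁ μ₂ = 0 := by
    rw [← hk]
    have e1 : H112.H c.q = ent (conv μ₁ μ₂) := by
      rw [← ent_cf]
      unfold Mn.q
      rw [cf_mul]
      rfl
    have e2 : H112.H c.p₁ = ent μ₁ := by rw [← ent_cf]; rfl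
    have e3 : H112.H c.p₂ = ent μ₂ := by rw [← ent_cf]; rfl
    unfold Mn.k Mn.h
    rw [e1, e2, e3]
    unfold H137.PFR.dist
    ring
  obtain ⟨G, hG1, he1, hG2, he2⟩ := hundred hμ₁ hμ₂ hd
  refine ⟨G, ?_⟩
  have ht := hmin μ μ hμ hμ
  have hdd : ent (conv μ₁ μ₂) = (ent μ₁ + ent μ₂) / 2 := by
    unfold H137.PFR.dist at hd; linarith
  set κ := ent (conv μ μ) - ent μ with hκ
  have hκ0 : 0 ≤ κ := by
    have := ent_le_conv_left hμ hμ
    linarith
  -- sum of the distances
  have hsum : η * (H137.PFR.dist μ μ₁ + H137.PFR.dist μ μ₂) ≤ (1 + 2 * η) * κ := by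
    unfold FF at ht
    rw [hdd] at ht
    unfold H137.PFR.dist
    rw [hκ]
    nlinarith
  have hR : (1 + 2 * η) / (2 * η) = 1000 * (r : ℝ) ^ 2 + 1 := by
    rw [hη]; field_simp; ring
  have key : ∀ ν : V → ℝ, Law ν → (∀ h ∈ G, ∀ x, ν (x + h) = ν x) →
      ent ν = Real.log (Nat.card G) → H137.PFR.dist μ ν ≤ (1000 * (r : ℝ) ^ 2 + 1) * κ →
      entMod μ G ≤ (2000 * (r : ℝ) ^ 2 + 2) * κ ∧
      |Real.log (Nat.card G) - ent μ| ≤ (2000 * (r : ℝ) ^ 2 + 2) * κ := by
    intro ν hν hinv hent hdist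
    have e1 := entMod_add_log_le hμ hν G hinv
    have e2 := ent_le_entMod hμ G
    have e3 : 0 ≤ entMod μ G := H_nonneg hμ _
    have e4 : H137.PFR.dist μ ν = ent (conv μ ν) - ent μ / 2 - ent ν / 2 := rfl
    rw [hent] at e4
    have e5 : entMod μ G ≤ (2000 * (r : ℝ) ^ 2 + 2) * κ := by linarith
    refine ⟨e5, ?_⟩
    rw [abs_le]
    constructor <;> linarith
  have hmin2 : ∀ d : ℝ, 2 * η * d ≤ (1 + 2 * η) * κ → d ≤ (1000 * (r : ℝ) ^ 2 + 1) * κ := by
    intro d h
    rw [← hR, div_mul_eq_mul_div, le_div_iff₀ (by linarith)]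
    linarith
  rcases le_total (H137.PFR.dist μ μ₁) (H137.PFR.dist μ μ₂) with h | h
  · refine key μ₁ hμ₁ hG1 he1 (hmin2 _ ?_)
    have := mul_le_mul_of_nonneg_left h hη0.le
    linarith
  · refine key μ₂ hμ₂ hG2 he2 (hmin2 _ ?_)
    have := mul_le_mul_of_nonneg_left h hη0.le
    linarith

/-- a subgroup of prescribed size up to a factor `m` -/
theorem exists_sub {V : Type*} [AddCommGroup V] [Finite V] {m : ℕ} (hm0 : 0 < m)
    (hm : ∀ x : V, m • x = 0) (G : AddSubgroup V) {N : ℕ} (hN : 1 ≤ N) (hG : N < Nat.card G) :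
    ∃ G' : AddSubgroup V, G' ≤ G ∧ Nat.card G' ≤ N ∧ N < m * Nat.card G' := by
  have hfin : Finite (AddSubgroup V) := inferInstance
  have hne : {G' : AddSubgroup V | G' ≤ G ∧ Nat.card G' ≤ N}.Nonempty :=
    ⟨⊥, bot_le, by simpa using hN⟩
  obtain ⟨G', hG', hmax⟩ := (Set.toFinite {G' : AddSubgroup V | G' ≤ G ∧
    Nat.card G' ≤ N}).exists_maximal hne
  refine ⟨G', hG'.1, hG'.2, ?_⟩
  have hlt : ∃ g ∈ G, g ∉ G' := by
    by_contra hcon
    push Not at hcon
    have : G ≤ G' := fun g hg => hcon g hg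
    have h2 : Nat.card G ≤ Nat.card G' := AddSubgroup.card_le_of_le this
    have h3 : Nat.card G' ≤ N := hG'.2
    omega
  obtain ⟨g, hgG, hgG'⟩ := hlt
  have h1 := H112.cover_sup_card G' g hm0 (by rw [hm g]; exact G'.zero_mem)
  have h2 : G' ⊔ AddSubgroup.zmultiples g ≤ G :=
    sup_le hG'.1 (by rw [AddSubgroup.zmultiples_le]; exact hgG)
  by_contra hcon
  push Not at hcon
  have h3 : Nat.card (G' ⊔ AddSubgroup.zmultiples g : AddSubgroup V) ≤ N := h1.trans hcon
  have h4 := hmax (y := G' ⊔ AddSubgroup.zmultiples g) ⟨h2, h3⟩ le_sup_left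
  exact hgG' (h4 (AddSubgroup.mem_sup_right (AddSubgroup.mem_zmultiples g)))

/-- representatives -/
theorem exists_reps {V : Type*} [AddCommGroup V] [Finite V] {G' G : AddSubgroup V}
    (h : G' ≤ G) : ∃ Y : Finset V, Y.card * Nat.card G' ≤ Nat.card G ∧
      ∀ g ∈ G, ∃ y ∈ Y, g - y ∈ G' := by
  have : Fintype (G ⧸ G'.addSubgroupOf G) := Fintype.ofFinite _
  refine ⟨Finset.univ.image (fun q : G ⧸ G'.addSubgroupOf G => ((Quotient.out q : G) : V)), ?_, ?_⟩
  · have h1 := AddSubgroup.card_eq_card_quotient_mul_card_addSubgroup (G'.addSubgroupOf G)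
    have h2 : Nat.card (G'.addSubgroupOf G) = Nat.card G' :=
      Nat.card_congr (AddSubgroup.addSubgroupOfEquivOfLe h).toEquiv
    rw [h1, h2]
    apply Nat.mul_le_mul_right
    rw [Nat.card_eq_fintype_card, ← Finset.card_univ]
    exact Finset.card_image_le
  · intro g hg
    refine ⟨_, Finset.mem_image_of_mem _ (Finset.mem_univ (QuotientAddGroup.mk (⟨g, hg⟩ : G))), ?_⟩
    have h1 : (QuotientAddGroup.mk (Quotient.out (QuotientAddGroup.mk (⟨g, hg⟩ : G) :
        G ⧸ G'.addSubgroupOf G)) : G ⧸ G'.addSubgroupOf G) = QuotientAddGroup.mk ⟨g, hg⟩ :=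
      Quotient.out_eq _
    rw [QuotientAddGroup.eq, AddSubgroup.mem_addSubgroupOf] at h1
    have h2 : g - ((Quotient.out (QuotientAddGroup.mk (⟨g, hg⟩ : G) :
        G ⧸ G'.addSubgroupOf G) : G) : V) = ((-(Quotient.out (QuotientAddGroup.mk (⟨g, hg⟩ : G) :
        G ⧸ G'.addSubgroupOf G)) + ⟨g, hg⟩ : G) : V) := by
      push_cast
      abel
    rw [h2]
    exact h1


section cover

open scoped Pointwise

variable {V : Type*} [AddCommGroup V] [Fintype V]

/-- uniform law -/
noncomputable def unif (A : Finset V) : V → ℝ := fun x => if x ∈ A then (A.card : ℝ)⁻¹ else 0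

theorem law_unif {A : Finset V} (hA : A.Nonempty) : Law (unif A) := by
  have hc : (0 : ℝ) < A.card := by exact_mod_cast hA.card_pos
  refine ⟨fun x => ?_, ?_⟩
  · unfold unif
    split_ifs
    · positivity
    · exact le_rfl
  · unfold unif
    rw [Finset.sum_ite_mem, Finset.univ_inter, Finset.sum_const, nsmul_eq_mul,
      mul_inv_cancel₀ hc.ne']

theorem ent_unif' {A : Finset V} (hA : A.Nonempty) : ent (unif A) = Real.log A.card := by
  have hc : (0 : ℝ) < A.card := by exact_mod_cast hA.card_pos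
  unfold ent
  have : ∀ x : V, Real.negMulLog (unif A x) =
      if x ∈ A then Real.negMulLog ((A.card : ℝ)⁻¹) else 0 := by
    intro x
    unfold unif
    split_ifs
    · rfl
    · exact Real.negMulLog_zero
  rw [Finset.sum_congr rfl fun x _ => this x, Finset.sum_ite_mem, Finset.univ_inter,
    Finset.sum_const, nsmul_eq_mul, Real.negMulLog, Real.log_inv]
  field_simp

theorem ent_conv_unif {A : Finset V} (hA : A.Nonempty) :
    ent (conv (unif A) (unif A)) ≤ Real.log (A + A).card := by
  apply ent_le_log_card (law_conv (law_unif hA) (law_unif hA))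
  intro x hx
  rw [Hundred.conv_apply]
  apply Finset.sum_eq_zero
  intro y _
  unfold unif
  by_cases h1 : y ∈ A
  · by_cases h2 : x - y ∈ A
    · exfalso
      apply hx
      have := Finset.add_mem_add h2 h1
      rwa [sub_add_cancel] at this
    · rw [if_neg h2, mul_zero]
  · rw [if_neg h1, zero_mul]

/-- combinatorial Marton theorem in a finite group of exponent `m`, parameter form -/
theorem cover_fin {m r : ℕ} (hm0 : 0 < m) (hm : ∀ x : V, m • x = 0) (hr : 1 ≤ r)
    (hu : 60 * m * r + 2 ≤ 2 ^ r / m) {A : Finset V} (hA : A.Nonempty) {K : ℝ}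
    (hK : ((A + A).card : ℝ) ≤ K * A.card) :
    ∃ (G : AddSubgroup V) (T : Finset V), Nat.card G ≤ A.card ∧
      (T.card : ℝ) ≤ m * Real.exp ((4000 * (r : ℝ) ^ 2 + 5) * Real.log K) ∧
      ∀ a ∈ A, ∃ t ∈ T, a - t ∈ G := by
  have hc : (0 : ℝ) < A.card := by exact_mod_cast hA.card_pos
  have hAA : (A.card : ℝ) ≤ (A + A).card := by
    exact_mod_cast Finset.card_le_card_add_right hA
  have hK1 : 1 ≤ K := by nlinarith
  have hlogK : 0 ≤ Real.log K := Real.log_nonneg hK1
  have hκ : ent (conv (unif A) (unif A)) - ent (unif A) ≤ Real.log K := by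
    have h1 := ent_conv_unif hA
    have h2 : Real.log (A + A).card ≤ Real.log (K * A.card) :=
      Real.log_le_log (by linarith) hK
    rw [Real.log_mul (by linarith) hc.ne'] at h2
    rw [ent_unif' hA]
    linarith
  obtain ⟨G, hG1, hG2⟩ := ent_pfr hm0 hm hr hu (law_unif hA)
  set R : ℝ := 2000 * (r : ℝ) ^ 2 + 2 with hR
  have hR0 : 0 ≤ R := by rw [hR]; positivity
  have hG1' : entMod (unif A) G ≤ R * Real.log K :=
    hG1.trans (mul_le_mul_of_nonneg_left hκ hR0)
  have hG2' : Real.log (Nat.card G) ≤ Real.log A.card + R * Real.log K := by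
    have h1 := (abs_le.1 hG2).2
    have h2 := mul_le_mul_of_nonneg_left hκ hR0
    rw [ent_unif' hA] at h1 h2
    linarith
  have hGpos : (0 : ℝ) < Nat.card G := by exact_mod_cast Nat.card_pos
  have hGcard : (Nat.card G : ℝ) ≤ A.card * Real.exp (R * Real.log K) := by
    rw [← Real.exp_log hGpos, ← Real.exp_log hc, ← Real.exp_add]
    exact Real.exp_le_exp.2 hG2'
  -- a popular coset
  obtain ⟨B, hBA, hBcard, hBB⟩ : ∃ B ⊆ A, (A.card : ℝ) * Real.exp (-(R * Real.log K)) ≤ B.card ∧
      ∀ x ∈ B, ∀ y ∈ B, x - y ∈ G := by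
    have hl := law_push (law_unif hA) (fun x : V => (QuotientAddGroup.mk x : V ⧸ G))
    obtain ⟨q, hq⟩ : ∃ q : V ⧸ G, Real.exp (-entMod (unif A) G) ≤
        push (unif A) (fun x : V => (QuotientAddGroup.mk x : V ⧸ G)) q := by
      by_contra hcon
      push Not at hcon
      set p := push (unif A) (fun x : V => (QuotientAddGroup.mk x : V ⧸ G)) with hp
      have he : ent p = entMod (unif A) G := rfl
      rw [← he] at hcon
      have h1 : ∀ a, p a * ent p ≤ Real.negMulLog (p a) := by
        intro a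
        rcases (hl.1 a).eq_or_lt with h | h
        · rw [← h]; simp
        · rw [Real.negMulLog]
          have h2 : Real.log (p a) < -ent p := by
            rw [← Real.log_exp (-ent p)]
            exact Real.log_lt_log h (hcon a)
          nlinarith
      obtain ⟨a, ha⟩ : ∃ a, 0 < p a := by
        by_contra h
        push Not at h
        have : ∑ x, p x ≤ 0 := Finset.sum_nonpos (fun x _ => h x)
        rw [hl.2] at this
        linarith
      have h2 : p a * ent p < Real.negMulLog (p a) := by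
        rw [Real.negMulLog]
        have h3 : Real.log (p a) < -ent p := by
          rw [← Real.log_exp (-ent p)]
          exact Real.log_lt_log ha (hcon a)
        nlinarith
      have h3 : ∑ x, p x * ent p < ∑ x, Real.negMulLog (p x) :=
        Finset.sum_lt_sum (fun x _ => h1 x) ⟨a, Finset.mem_univ a, h2⟩
      rw [← Finset.sum_mul, hl.2, one_mul] at h3
      exact lt_irrefl _ h3
    refine ⟨A.filter (fun x => (QuotientAddGroup.mk x : V ⧸ G) = q), Finset.filter_subset _ _,
      ?_, ?_⟩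
    · have h1 : push (unif A) (fun x : V => (QuotientAddGroup.mk x : V ⧸ G)) q =
          ((A.filter (fun x => (QuotientAddGroup.mk x : V ⧸ G) = q)).card : ℝ) *
            (A.card : ℝ)⁻¹ := by
        unfold push unif
        rw [← nsmul_eq_mul, ← Finset.sum_const, Finset.sum_filter]
        symm
        refine (Finset.sum_congr rfl ?_).trans (Finset.sum_subset (Finset.subset_univ A) ?_)
        · intro x hx
          by_cases h : (QuotientAddGroup.mk x : V ⧸ G) = q
          · simp [h, hx]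
          · simp [h]
        · intro x _ hx
          rw [if_neg hx, ite_self]
      rw [h1] at hq
      have h2 : Real.exp (-(R * Real.log K)) ≤ Real.exp (-entMod (unif A) G) :=
        Real.exp_le_exp.2 (by linarith)
      have h3 := h2.trans hq
      rw [← div_eq_mul_inv, le_div_iff₀ hc] at h3
      linarith
    · intro x hx y hy
      have h1 := (Finset.mem_filter.1 hx).2
      have h2 := (Finset.mem_filter.1 hy).2
      have h3 : (QuotientAddGroup.mk y : V ⧸ G) = QuotientAddGroup.mk x := h2.trans h1.symm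
      rw [QuotientAddGroup.eq] at h3
      have : x - y = -y + x := by abel
      rw [this]; exact h3
  have hBpos : (0 : ℝ) < B.card := lt_of_lt_of_le (by positivity) hBcard
  have hBne : B.Nonempty := by
    rw [← Finset.card_pos]; exact_mod_cast hBpos
  -- Ruzsa covering
  have hcov : ((A + B).card : ℝ) ≤ Real.exp ((R + 1) * Real.log K) * B.card := by
    have h1 : ((A + B).card : ℝ) ≤ (A + A).card := by
      exact_mod_cast Finset.card_le_card (Finset.add_subset_add_left hBA)
    have h2 : Real.exp ((R + 1) * Real.log K) = K * Real.exp (R * Real.log K) := by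
      rw [add_mul, one_mul, add_comm, Real.exp_add, Real.exp_log (by linarith)]
    have h3 : (A.card : ℝ) ≤ Real.exp (R * Real.log K) * B.card := by
      have h4 := mul_le_mul_of_nonneg_left hBcard (Real.exp_pos (R * Real.log K)).le
      have h5 : Real.exp (R * Real.log K) * (A.card * Real.exp (-(R * Real.log K))) = A.card := by
        rw [Real.exp_neg]; field_simp
      linarith
    rw [h2]
    calc ((A + B).card : ℝ) ≤ K * A.card := h1.trans hK
      _ ≤ K * (Real.exp (R * Real.log K) * B.card) := mul_le_mul_of_nonneg_left h3 (by linarith)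
      _ = _ := by ring
  obtain ⟨X, hXA, hXcard, hX⟩ := Finset.ruzsa_covering_add hBne hcov
  have hXcov : ∀ a ∈ A, ∃ x ∈ X, a - x ∈ G := by
    intro a ha
    obtain ⟨x, hx, y, hy, hxy⟩ := Finset.mem_add.1 (hX ha)
    obtain ⟨u, hu', v, hv, huv⟩ := Finset.mem_sub.1 hy
    refine ⟨x, hx, ?_⟩
    have : a - x = u - v := by rw [← hxy, ← huv]; abel
    rw [this]
    exact hBB u hu' v hv
  have hm1 : (1 : ℝ) ≤ m := by exact_mod_cast hm0
  have hfinal : (4000 * (r : ℝ) ^ 2 + 5) * Real.log K = (R + 1) * Real.log K + R * Real.log K := by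
    rw [hR]; ring
  rw [hfinal, Real.exp_add]
  rcases le_or_gt (Nat.card G) A.card with hle | hgt
  · refine ⟨G, X, hle, ?_, hXcov⟩
    have h1 : 1 ≤ Real.exp (R * Real.log K) := Real.one_le_exp (by positivity)
    have h2 : 0 ≤ Real.exp ((R + 1) * Real.log K) := (Real.exp_pos _).le
    calc (X.card : ℝ) ≤ Real.exp ((R + 1) * Real.log K) := hXcard
      _ = 1 * (Real.exp ((R + 1) * Real.log K) * 1) := by ring
      _ ≤ m * (Real.exp ((R + 1) * Real.log K) * Real.exp (R * Real.log K)) := by gcongr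
  · obtain ⟨G', hG'G, hG'A, hG'm⟩ := exists_sub hm0 hm G hA.card_pos hgt
    obtain ⟨Y, hYcard, hY⟩ := exists_reps hG'G
    refine ⟨G', X + Y, hG'A, ?_, ?_⟩
    · have hG'pos : (0 : ℝ) < Nat.card G' := by exact_mod_cast Nat.card_pos
      have h1 : (Y.card : ℝ) * Nat.card G' ≤ Nat.card G := by exact_mod_cast hYcard
      have h2 : (A.card : ℝ) ≤ m * Nat.card G' := by exact_mod_cast hG'm.le
      have h3 : (Y.card : ℝ) ≤ m * Real.exp (R * Real.log K) := by
        refine le_of_mul_le_mul_right ?_ hG'pos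
        calc (Y.card : ℝ) * Nat.card G' ≤ Nat.card G := h1
          _ ≤ A.card * Real.exp (R * Real.log K) := hGcard
          _ ≤ (m * Nat.card G') * Real.exp (R * Real.log K) := by gcongr
          _ = _ := by ring
      calc ((X + Y).card : ℝ) ≤ X.card * Y.card := by exact_mod_cast Finset.card_add_le
        _ ≤ Real.exp ((R + 1) * Real.log K) * (m * Real.exp (R * Real.log K)) := by gcongr
        _ = _ := by ring
    · intro a ha
      obtain ⟨x, hx, hxa⟩ := hXcov a ha
      obtain ⟨y, hy, hya⟩ := hY _ hxa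
      refine ⟨x + y, Finset.add_mem_add hx hy, ?_⟩
      rw [← sub_sub]; exact hya

end cover

end W859.Tor
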