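import Pool.Agent.W859.Tor.Dec
set_option autoImplicit false
set_option linter.unusedSectionVars false

/-! Weighted sums over grids: growth. -/

open scoped Classical

namespace W859.Tor

open H137.PFR

/-- products of images of `q` -/
inductive Cl {V : Type*} [AddCommGroup V] [Fintype V] (c : Mn V) {G : Type*} [AddCommGroup G] :
    M G → Prop
  | one : Cl c 1
  | step (φ : V →+ G) {b : M G} : Cl c b → Cl c (mp φ c.q * b)

section cl

variable {V : Type*} [AddCommGroup V] [Fintype V] {c : Mn V}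
variable {G G' : Type*} [AddCommGroup G] [AddCommGroup G']

theorem Cl.law {b : M G} (h : Cl c b) : H112.Law b := by
  induction h with
  | one => exact H112.Law.one
  | step φ _ ih => exact (mp_law φ c.lq).mul ih

theorem Cl.mul {b b' : M G} (h : Cl c b) (h' : Cl c b') : Cl c (b * b') := by
  induction h with
  | one => simpa using h'
  | step φ _ ih => rw [mul_assoc]; exact Cl.step φ ih

theorem Cl.map (ψ : G →+ G') {b : M G} (h : Cl c b) : Cl c (mp ψ b) := by
  induction h with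
  | one => rw [map_one]; exact Cl.one
  | step φ _ ih => rw [map_mul, mp_comp]; exact Cl.step _ ih

theorem Cl.pow {b : M G} (h : Cl c b) (n : ℕ) : Cl c (b ^ n) := by
  induction n with
  | zero => rw [pow_zero]; exact Cl.one
  | succ n ih => rw [pow_succ]; exact ih.mul h

theorem Cl.prod {ι : Type*} (I : Finset ι) {f : ι → M G} (h : ∀ i ∈ I, Cl c (f i)) :
    Cl c (∏ i ∈ I, f i) := by
  induction I using Finset.induction_on with
  | empty => simpa using Cl.one
  | insert i I hi ih =>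
    rw [Finset.prod_insert hi]
    exact (h i (Finset.mem_insert_self i I)).mul
      (ih fun j hj => h j (Finset.mem_insert_of_mem hj))

theorem Cl.of (φ : V →+ G) : Cl c (mp φ c.q) := by
  have := Cl.step φ (Cl.one (c := c))
  rwa [mul_one] at this

theorem Cl.q : Cl c c.q := by
  have := Cl.of (c := c) (AddMonoidHom.id V)
  rwa [mp_id] at this

theorem Cl.UB [Fintype G] {s : ℝ} {b b' : M G} (hb' : Cl c b') (hb : c.UB s b) :
    c.UB s (b' * b) := by
  induction hb' with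
  | one => simpa using hb
  | step φ _ ih => rw [mul_assoc]; exact c.UB_step φ ih

end cl

/-- multiplication by `n` -/
noncomputable abbrev ns (V : Type*) [AddCommGroup V] (n : ℕ) : V →+ V := nsmulAddMonoidHom n

namespace Mn

variable {V : Type*} [AddCommGroup V] [Fintype V] (c : Mn V)

theorem law_pow (n : ℕ) : H112.Law (c.q ^ n) := c.lq.pow n

theorem UB_e {G : Type*} [AddCommGroup G] [Fintype G] {b : M G} (hb : c.UB 1 b) :
    H112.H (b * b) - c.h ≤ (1 + c.η) * (H112.H b - c.h) + c.k := by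
  have := hb.2
  linarith

theorem growth (j : ℕ) :
    H112.H (c.q ^ 2 ^ j) - c.h ≤ (j + 1) * (1 + c.η) ^ j * c.k := by
  induction j with
  | zero =>
    have := c.H_q
    simp only [pow_zero, pow_one, Nat.cast_zero]
    linarith
  | succ j ih =>
    have h1 := c.UB_e (c.UB_pow (n := 2 ^ j) Nat.one_le_two_pow)
    have e1 : c.q ^ 2 ^ j * c.q ^ 2 ^ j = c.q ^ 2 ^ (j + 1) := by
      rw [← pow_add, pow_succ 2 j, mul_two]
    rw [e1] at h1
    have h2 : (1 + c.η) * (H112.H (c.q ^ 2 ^ j) - c.h) ≤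
        (1 + c.η) * ((j + 1) * (1 + c.η) ^ j * c.k) :=
      mul_le_mul_of_nonneg_left ih (by linarith [c.hη])
    have h3 : c.k ≤ (1 + c.η) ^ (j + 1) * c.k := by
      have : (1 : ℝ) ≤ (1 + c.η) ^ (j + 1) := one_le_pow₀ (by linarith [c.hη])
      nlinarith [c.k_nonneg]
    have h4 : (1 + c.η) * ((j + 1) * (1 + c.η) ^ j * c.k) + (1 + c.η) ^ (j + 1) * c.k =
        ((j + 1 : ℕ) + 1) * (1 + c.η) ^ (j + 1) * c.k := by
      push_cast
      rw [pow_succ]; ring
    linarith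

/-- independent version of the weighted sum -/
noncomputable def W (N a : ℕ) : M V := ∏ i ∈ Finset.range a, mp (ns V (2 ^ i)) (c.q ^ 2 ^ N)

theorem ns_one : ns V 1 = AddMonoidHom.id V := by
  ext x
  simp

theorem ns_comp (m n : ℕ) : (ns V m).comp (ns V n) = ns V (m * n) := by
  ext x
  simp [mul_smul]

theorem W_succ (N a : ℕ) : c.W N (a + 1) = c.q ^ 2 ^ N * mp (ns V 2) (c.W N a) := by
  unfold W
  rw [Finset.prod_range_succ', map_prod, pow_zero, ns_one, mp_id, mul_comm]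
  congr 1
  refine Finset.prod_congr rfl fun i _ => ?_
  rw [mp_comp, ns_comp, pow_succ, mul_comm 2]

theorem Cl_W (N a : ℕ) : Cl c (c.W N a) :=
  Cl.prod _ fun _ _ => Cl.map _ (Cl.q.pow _)

theorem UB_W (N a : ℕ) : c.UB 1 (c.W N (a + 1)) := by
  rw [W_succ, mul_comm]
  exact ((c.Cl_W N a).map _).UB (c.UB_pow Nat.one_le_two_pow)

theorem W_step (N a : ℕ) : H112.H (c.W N (a + 2)) - c.h ≤
    (1 + 4 * c.η) * (H112.H (c.W N (a + 1)) - c.h) + 4 * c.k := by
  have lR : H112.Law (c.W N (a + 1)) := (c.Cl_W N (a + 1)).law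
  have lM : H112.Law (c.q ^ 2 ^ N) := c.law_pow _
  have lr : H112.Law (mp (ns V 2) (c.W N a)) := mp_law _ (c.Cl_W N a).law
  have h1 := H_double lR lM
  rw [← W_succ] at h1
  have h2 := dd_le lR
  have h3 := H112.H_submod lM lR lR
  have h4 := H112.H_submod lM lM lr
  rw [mul_assoc, ← W_succ] at h4
  have h5 := (c.UB_pow (n := 2 ^ N) Nat.one_le_two_pow).2
  have h6 := (c.UB_W N a).2
  have h7 : H112.H (c.q ^ 2 ^ N) ≤ H112.H (c.W N (a + 1)) := by
    rw [W_succ]
    exact H112.H_le_mul lM lr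
  have h8 := mul_le_mul_of_nonneg_left h7 c.hη
  linarith

theorem W_bound (N a : ℕ) : H112.H (c.W N (a + 1)) - c.h ≤
    (1 + 4 * c.η) ^ a * ((H112.H (c.q ^ 2 ^ N) - c.h) + 4 * a * c.k) := by
  induction a with
  | zero =>
    have : c.W N (0 + 1) = c.q ^ 2 ^ N := by
      rw [W_succ]
      unfold W
      simp
    rw [this]
    simp
  | succ a ih =>
    have h1 := c.W_step N a
    have h2 : (1 + 4 * c.η) * (H112.H (c.W N (a + 1)) - c.h) ≤
        (1 + 4 * c.η) * ((1 + 4 * c.η) ^ a * ((H112.H (c.q ^ 2 ^ N) - c.h) + 4 * a * c.k)) :=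
      mul_le_mul_of_nonneg_left ih (by linarith [c.hη])
    have h3 : 4 * c.k ≤ (1 + 4 * c.η) ^ (a + 1) * (4 * c.k) := by
      have : (1 : ℝ) ≤ (1 + 4 * c.η) ^ (a + 1) := one_le_pow₀ (by linarith [c.hη])
      nlinarith [c.k_nonneg]
    have h4 : (1 + 4 * c.η) * ((1 + 4 * c.η) ^ a * ((H112.H (c.q ^ 2 ^ N) - c.h) + 4 * a * c.k)) +
        (1 + 4 * c.η) ^ (a + 1) * (4 * c.k) =
        (1 + 4 * c.η) ^ (a + 1) * ((H112.H (c.q ^ 2 ^ N) - c.h) + 4 * (a + 1 : ℕ) * c.k) := by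
      push_cast
      rw [pow_succ]; ring
    linarith

/-- law of `∑ i X_{ij}` over `i < 2^a`, `j < 2^b` -/
noncomputable def t (a b : ℕ) : M V := ∏ i ∈ Finset.range (2 ^ a), (mp (ns V i) c.q) ^ 2 ^ b

/-- `x ↦ (n x, x)` -/
noncomputable def v2 (n : ℕ) : V →+ V × V := (ns V n).prod (AddMonoidHom.id V)

/-- law of `(∑ i X_{ij}, ∑ X_{ij})` -/
noncomputable def B2 (a b : ℕ) : M (V × V) :=
  ∏ i ∈ Finset.range (2 ^ a), (mp (v2 i) c.q) ^ 2 ^ b

theorem Cl_t (a b : ℕ) : Cl c (c.t a b) := Cl.prod _ fun _ _ => (Cl.of _).pow _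

theorem Cl_B2 (a b : ℕ) : Cl c (c.B2 a b) := Cl.prod _ fun _ _ => (Cl.of _).pow _

theorem fst_B2 (a b : ℕ) : mp (AddMonoidHom.fst V V) (c.B2 a b) = c.t a b := by
  unfold B2 t
  rw [map_prod]
  refine Finset.prod_congr rfl fun i _ => ?_
  rw [map_pow, mp_comp]
  rfl

theorem snd_B2 (a b : ℕ) : mp (AddMonoidHom.snd V V) (c.B2 a b) = c.q ^ 2 ^ (a + b) := by
  unfold B2
  rw [map_prod]
  have : ∀ i ∈ Finset.range (2 ^ a), mp (AddMonoidHom.snd V V) ((mp (v2 i) c.q) ^ 2 ^ b) =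
      c.q ^ 2 ^ b := by
    intro i _
    rw [map_pow, mp_comp]
    have e : (AddMonoidHom.snd V V).comp (v2 i) = AddMonoidHom.id V := rfl
    rw [e, mp_id]
  rw [Finset.prod_congr rfl this, Finset.prod_const, Finset.card_range, ← pow_mul, ← pow_add,
    add_comm b a]

theorem t_succ (a b : ℕ) : c.t (a + 1) b =
    c.t a b * mp (AddMonoidHom.fst V V + (ns V (2 ^ a)).comp (AddMonoidHom.snd V V))
      (c.B2 a b) := by
  unfold t B2
  rw [pow_succ 2 a, mul_two, Finset.prod_range_add, map_prod]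
  congr 1
  refine Finset.prod_congr rfl fun i _ => ?_
  rw [map_pow, mp_comp]
  congr 2
  congr 1
  ext x
  simp [v2, add_smul, add_comm]

theorem t_mul (a b : ℕ) : c.t a b * c.t a b = c.t a (b + 1) := by
  unfold t
  rw [← Finset.prod_mul_distrib]
  refine Finset.prod_congr rfl fun i _ => ?_
  rw [← pow_add, pow_succ 2 b, mul_two]

theorem t_zero (b : ℕ) : c.t 0 b = 1 := by
  unfold t
  rw [pow_zero, Finset.prod_range_one]
  have h1 : mp (ns V 0) c.q = 1 := by
    apply cf_injective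
    funext x
    have h2 : cf (mp (ns V 0) c.q) x = (mp (ns V 0) c.q).coeff x := rfl
    rw [cf_mp]
    have h3 : (1 : M V) = AddMonoidAlgebra.single 0 1 := AddMonoidAlgebra.one_def
    unfold cf
    rw [h3, AddMonoidAlgebra.coeff_single, Finsupp.single_apply]
    unfold push
    have h4 : ∀ ω : V, (ns V 0) ω = 0 := fun ω => by simp
    simp only [h4]
    by_cases hx : (0 : V) = x
    · simp only [hx, if_true]
      exact (law_cf c.lq).2
    · simp only [hx, if_false, Finset.sum_const_zero]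
  rw [h1, one_pow]

theorem t_dec (a : ℕ) : ∀ (b N : ℕ) (ν : M V), a + b = N + 1 → H112.Law ν →
    H112.H (c.t a b * ν) ≤ H112.H (c.W N a * ν) + a * dd (c.q ^ 2 ^ N) := by
  induction a with
  | zero =>
    intro b N ν _ hν
    rw [t_zero]
    unfold W
    simp
  | succ a ih =>
    intro b N ν hab hν
    have hN : a + b = N := by omega
    have lB : H112.Law (c.B2 a b) := (c.Cl_B2 a b).law
    have lt : H112.Law (c.t a b) := (c.Cl_t a b).law
    have h1 := H_shift (B := c.B2 a b) (ν := c.t a b * ν) lB (lt.mul hν) (2 ^ a)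
    rw [fst_B2, snd_B2, hN] at h1
    have e1 : c.t a b * ν * mp (AddMonoidHom.fst V V +
        (nsmulAddMonoidHom (2 ^ a)).comp (AddMonoidHom.snd V V)) (c.B2 a b) =
        c.t (a + 1) b * ν := by
      rw [t_succ]; ring
    rw [e1] at h1
    have h2 := dd_mp (ns V (2 ^ a)) (c.law_pow (2 ^ N))
    have h3 := ih (b + 1) N (mp (ns V (2 ^ a)) (c.q ^ 2 ^ N) * ν) (by omega)
      ((mp_law _ (c.law_pow _)).mul hν)
    have e2 : c.t a b * ν * c.t a b * mp (nsmulAddMonoidHom (2 ^ a)) (c.q ^ 2 ^ N) =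
        c.t a (b + 1) * (mp (ns V (2 ^ a)) (c.q ^ 2 ^ N) * ν) := by
      rw [← t_mul]; ring
    have e3 : c.W N a * (mp (ns V (2 ^ a)) (c.q ^ 2 ^ N) * ν) = c.W N (a + 1) * ν := by
      unfold W
      rw [Finset.prod_range_succ, mul_assoc]
    rw [e2] at h1
    rw [e3] at h3
    push_cast
    linarith

/-- size of the weighted sum -/
theorem t_bound {r a b N : ℕ} (hab : a + 1 + b = N + 1) (ha : a + 1 ≤ r) (hN : N + 1 ≤ 2 * r)
    (h1 : (1 + 4 * c.η) ^ (2 * r) ≤ 2) (h2 : 4 * r * c.η ≤ 1) :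
    H112.H (c.t (a + 1) b) - c.h ≤ 20 * r * c.k := by
  have g1 := c.t_dec (a + 1) b N 1 hab H112.Law.one
  rw [mul_one, mul_one] at g1
  have g2 := c.W_bound N a
  have g3 := c.growth N
  have g4 := dd_le (c.law_pow (2 ^ N))
  have g5 := c.UB_e (c.UB_pow (n := 2 ^ N) Nat.one_le_two_pow)
  have hη := c.hη
  have hk := c.k_nonneg
  have hr0 : (0 : ℝ) ≤ r := Nat.cast_nonneg r
  have p1 : (1 + c.η) ^ N ≤ 2 := by
    calc (1 + c.η) ^ N ≤ (1 + 4 * c.η) ^ N := pow_le_pow_left₀ (by linarith) (by linarith) N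
      _ ≤ (1 + 4 * c.η) ^ (2 * r) := pow_le_pow_right₀ (by linarith) (by omega)
      _ ≤ 2 := h1
  have p2 : (1 + 4 * c.η) ^ a ≤ 2 :=
    (pow_le_pow_right₀ (by linarith) (by omega)).trans h1
  have hN' : (N : ℝ) + 1 ≤ 2 * r := by exact_mod_cast hN
  have ha' : (a : ℝ) + 1 ≤ r := by exact_mod_cast ha
  -- size of q^(2^N)
  have q1 : H112.H (c.q ^ 2 ^ N) - c.h ≤ 4 * r * c.k := by
    have : ((N : ℝ) + 1) * (1 + c.η) ^ N ≤ (2 * r) * 2 :=
      mul_le_mul hN' p1 (by positivity) (by positivity)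
    have := mul_le_mul_of_nonneg_right this hk
    linarith
  have q2 : dd (c.q ^ 2 ^ N) ≤ 4 * c.k := by
    have : c.η * (H112.H (c.q ^ 2 ^ N) - c.h) ≤ c.k := by
      calc c.η * (H112.H (c.q ^ 2 ^ N) - c.h) ≤ c.η * (4 * r * c.k) :=
            mul_le_mul_of_nonneg_left q1 hη
        _ = (4 * r * c.η) * c.k := by ring
        _ ≤ 1 * c.k := mul_le_mul_of_nonneg_right h2 hk
        _ = c.k := one_mul _
    linarith
  have q3 : H112.H (c.W N (a + 1)) - c.h ≤ 16 * r * c.k := by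
    have x0 : (H112.H (c.q ^ 2 ^ N) - c.h) + 4 * a * c.k ≤ 8 * r * c.k := by
      have : 4 * (a : ℝ) * c.k ≤ 4 * r * c.k := by
        apply mul_le_mul_of_nonneg_right _ hk
        linarith
      linarith
    have x1 : (1 + 4 * c.η) ^ a * ((H112.H (c.q ^ 2 ^ N) - c.h) + 4 * a * c.k) ≤
        (1 + 4 * c.η) ^ a * (8 * r * c.k) := mul_le_mul_of_nonneg_left x0 (by positivity)
    have x2 : (1 + 4 * c.η) ^ a * (8 * r * c.k) ≤ 2 * (8 * r * c.k) :=
      mul_le_mul_of_nonneg_right p2 (by positivity)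
    linarith
  have q4 : ((a + 1 : ℕ) : ℝ) * dd (c.q ^ 2 ^ N) ≤ 4 * r * c.k := by
    have : ((a + 1 : ℕ) : ℝ) * dd (c.q ^ 2 ^ N) ≤ ((a + 1 : ℕ) : ℝ) * (4 * c.k) :=
      mul_le_mul_of_nonneg_left q2 (Nat.cast_nonneg _)
    push_cast at this ⊢
    have h3 : ((a : ℝ) + 1) * (4 * c.k) ≤ r * (4 * c.k) :=
      mul_le_mul_of_nonneg_right ha' (by linarith)
    linarith
  linarith

end Mn

end W859.Tor
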