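import Pool.Agent.W859.Tor.Grid
set_option autoImplicit false
set_option linter.unusedSectionVars false

/-! Mutual information of the two weighted sums over a grid. -/

open scoped Classical

namespace W859.Tor

open H137.PFR

namespace Mn

variable {V : Type*} [AddCommGroup V] [Fintype V] (c : Mn V)

/-- `x ↦ (i x, j x, x)` -/
noncomputable def v3 (i j : ℕ) : V →+ V × V × V := (ns V i).prod ((ns V j).prod (AddMonoidHom.id V))

/-- law of `(∑ i X_{ij}, ∑ j X_{ij}, ∑ X_{ij})` -/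
noncomputable def P (a b : ℕ) : M (V × V × V) :=
  ∏ i ∈ Finset.range (2 ^ a), ∏ j ∈ Finset.range (2 ^ b), mp (v3 i j) c.q

/-- `(x, y, z) ↦ (x + n z, y, z)` -/
def sh1 (V : Type*) [AddCommGroup V] (n : ℕ) : V × V × V →+ V × V × V where
  toFun p := (p.1 + n • p.2.2, p.2.1, p.2.2)
  map_zero' := by simp
  map_add' p q := by
    refine Prod.ext ?_ rfl
    simp only [Prod.fst_add, Prod.snd_add, smul_add]
    abel

/-- `(x, y, z) ↦ (x, y + n z, z)` -/
def sh2 (V : Type*) [AddCommGroup V] (n : ℕ) : V × V × V →+ V × V × V where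
  toFun p := (p.1, p.2.1 + n • p.2.2, p.2.2)
  map_zero' := by simp
  map_add' p q := by
    refine Prod.ext rfl (Prod.ext ?_ rfl)
    simp only [Prod.fst_add, Prod.snd_add, smul_add]
    abel

/-- projection `(x, z)` -/
def π13 (V : Type*) [AddCommGroup V] : V × V × V →+ V × V where
  toFun p := (p.1, p.2.2)
  map_zero' := rfl
  map_add' _ _ := rfl

/-- projection `(y, z)` -/
def π23 (V : Type*) [AddCommGroup V] : V × V × V →+ V × V where
  toFun p := (p.2.1, p.2.2)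
  map_zero' := rfl
  map_add' _ _ := rfl

/-- projection `z` -/
def π3 (V : Type*) [AddCommGroup V] : V × V × V →+ V where
  toFun p := p.2.2
  map_zero' := rfl
  map_add' _ _ := rfl

/-- projection `x` -/
def π1 (V : Type*) [AddCommGroup V] : V × V × V →+ V where
  toFun p := p.1
  map_zero' := rfl
  map_add' _ _ := rfl

/-- projection `y` -/
def π2 (V : Type*) [AddCommGroup V] : V × V × V →+ V where
  toFun p := p.2.1
  map_zero' := rfl
  map_add' _ _ := rfl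

theorem Cl_P (a b : ℕ) : Cl c (c.P a b) := Cl.prod _ fun _ _ => Cl.prod _ fun _ _ => Cl.of _

theorem P_succ1 (a b : ℕ) : c.P (a + 1) b = c.P a b * mp (sh1 V (2 ^ a)) (c.P a b) := by
  unfold P
  rw [pow_succ 2 a, mul_two, Finset.prod_range_add, map_prod]
  congr 1
  refine Finset.prod_congr rfl fun i _ => ?_
  rw [map_prod]
  refine Finset.prod_congr rfl fun j _ => ?_
  rw [mp_comp]
  congr 2
  ext x
  · simp [v3, sh1, add_smul, add_comm]
  · simp [v3, sh1]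
  · simp [v3, sh1]

theorem P_succ2 (a b : ℕ) : c.P a (b + 1) = c.P a b * mp (sh2 V (2 ^ b)) (c.P a b) := by
  unfold P
  rw [map_prod, ← Finset.prod_mul_distrib]
  refine Finset.prod_congr rfl fun i _ => ?_
  rw [pow_succ 2 b, mul_two, Finset.prod_range_add, map_prod]
  congr 1
  refine Finset.prod_congr rfl fun j _ => ?_
  rw [mp_comp]
  congr 2
  ext x
  · simp [v3, sh2]
  · simp [v3, sh2, add_smul, add_comm]
  · simp [v3, sh2]

theorem P_13 (a b : ℕ) : mp (π13 V) (c.P a b) = c.B2 a b := by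
  unfold P B2
  rw [map_prod]
  refine Finset.prod_congr rfl fun i _ => ?_
  rw [map_prod]
  have : ∀ j ∈ Finset.range (2 ^ b), mp (π13 V) (mp (v3 i j) c.q) = mp (v2 i) c.q := by
    intro j _
    rw [mp_comp]
    rfl
  rw [Finset.prod_congr rfl this, Finset.prod_const, Finset.card_range]

theorem P_23 (a b : ℕ) : mp (π23 V) (c.P a b) = c.B2 b a := by
  unfold P B2
  rw [Finset.prod_comm, map_prod]
  refine Finset.prod_congr rfl fun j _ => ?_
  rw [map_prod]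
  have : ∀ i ∈ Finset.range (2 ^ a), mp (π23 V) (mp (v3 i j) c.q) = mp (v2 j) c.q := by
    intro i _
    rw [mp_comp]
    rfl
  rw [Finset.prod_congr rfl this, Finset.prod_const, Finset.card_range]

theorem P_1 (a b : ℕ) : mp (π1 V) (c.P a b) = c.t a b := by
  rw [← fst_B2, ← P_13, mp_comp]
  rfl

theorem P_2 (a b : ℕ) : mp (π2 V) (c.P a b) = c.t b a := by
  rw [← fst_B2, ← P_23, mp_comp]
  rfl

theorem P_3 (a b : ℕ) : mp (π3 V) (c.P a b) = c.q ^ 2 ^ (a + b) := by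
  rw [← snd_B2, ← P_13, mp_comp]
  rfl

theorem Dv_t (a b : ℕ) : c.Dv (c.t (a + 1) b) := by
  refine ⟨(c.q ^ (2 ^ b - 1)) * ∏ i ∈ (Finset.range (2 ^ (a + 1))).erase 1,
    (mp (ns V i) c.q) ^ 2 ^ b, ?_, ?_⟩
  · exact (c.law_pow _).mul (Cl.prod _ fun _ _ => (Cl.of _).pow _ : Cl c _).law
  · unfold t
    have h1 : 1 ∈ Finset.range (2 ^ (a + 1)) := by
      rw [Finset.mem_range]
      calc 1 < 2 ^ 1 := by norm_num
        _ ≤ 2 ^ (a + 1) := Nat.pow_le_pow_right (by norm_num) (by omega)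
    rw [← Finset.mul_prod_erase _ _ h1, ns_one, mp_id, ← mul_assoc, ← pow_succ']
    congr 2
    have := Nat.one_le_two_pow (n := b)
    omega

theorem Dv_pow (m : ℕ) : c.Dv (c.q ^ 2 ^ m) := by
  refine ⟨c.q ^ (2 ^ m - 1), c.law_pow _, ?_⟩
  rw [← pow_succ']
  congr 1
  have := Nat.one_le_two_pow (n := m)
  omega

theorem UB_B2 (a b : ℕ) : c.UB 2 (c.B2 (a + 1) b) := by
  have h0 : 0 ∈ Finset.range (2 ^ (a + 1)) := by
    rw [Finset.mem_range]; positivity
  have h1 : 1 ∈ (Finset.range (2 ^ (a + 1))).erase 0 := by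
    rw [Finset.mem_erase, Finset.mem_range]
    refine ⟨one_ne_zero, ?_⟩
    calc 1 < 2 ^ 1 := by norm_num
      _ ≤ 2 ^ (a + 1) := Nat.pow_le_pow_right (by norm_num) (by omega)
  have e1 : c.B2 (a + 1) b = ((∏ i ∈ ((Finset.range (2 ^ (a + 1))).erase 0).erase 1,
      (mp (v2 i) c.q) ^ 2 ^ b) * ((mp (v2 0) c.q) ^ (2 ^ b - 1) * (mp (v2 1) c.q) ^ (2 ^ b - 1))) *
      (mp (v2 0) c.q * mp (v2 1) c.q) := by
    unfold B2
    rw [← Finset.mul_prod_erase _ _ h0, ← Finset.mul_prod_erase _ _ h1]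
    have e2 : 2 ^ b = (2 ^ b - 1) + 1 := by
      have := Nat.one_le_two_pow (n := b)
      omega
    have e3 : ∀ x : M (V × V), x ^ 2 ^ b = x ^ (2 ^ b - 1) * x := by
      intro x
      conv_lhs => rw [e2, pow_succ]
    rw [e3 (mp (v2 0) c.q), e3 (mp (v2 1) c.q)]
    ring
  rw [e1]
  refine Cl.UB ?_ ?_
  · exact (Cl.prod _ fun _ _ => (Cl.of _).pow _).mul (((Cl.of _).pow _).mul ((Cl.of _).pow _))
  · apply c.UB_base2
    intro x y hxy
    have h2 : ((0 : ℕ) • x + (1 : ℕ) • y, x + y) = ((0 : V), (0 : V)) := hxy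
    rw [Prod.mk.injEq, zero_smul, one_smul, zero_add] at h2
    obtain ⟨h3, h4⟩ := h2
    rw [h3, add_zero] at h4
    exact ⟨h4, h3⟩

/-- mutual information of the two weighted sums given the sum -/
noncomputable def J (a b : ℕ) : ℝ :=
  H112.H (c.B2 a b) + H112.H (c.B2 b a) - H112.H (c.P a b) - H112.H (c.q ^ 2 ^ (a + b))

theorem J_step1 (a b : ℕ) : c.J (a + 2) (b + 1) ≤ (1 + c.η) * c.J (a + 1) (b + 1) +
    4 * c.η * (H112.H (c.q ^ 2 ^ (a + 1 + (b + 1))) - c.h) +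
    2 * c.η * (H112.H (c.t (a + 1) (b + 1)) - c.h) +
    2 * c.η * (H112.H (c.t (b + 1) (a + 1)) - c.h) := by
  set Q := c.P (a + 1) (b + 1) with hQ
  have lQ : H112.Law Q := (c.Cl_P _ _).law
  have hw := law_cf lQ
  have x1 : lw (cf Q) (fun p : V × V × V => p.1) = c.t (a + 1) (b + 1) := by
    rw [← P_1]; exact lw_hom (π1 V) Q
  have x2 : lw (cf Q) (fun p : V × V × V => p.2.1) = c.t (b + 1) (a + 1) := by
    rw [← P_2]; exact lw_hom (π2 V) Q
  have x3 : lw (cf Q) (fun p : V × V × V => p.2.2) = c.q ^ 2 ^ (a + 1 + (b + 1)) := by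
    rw [← P_3]; exact lw_hom (π3 V) Q
  have x13 : lw (cf Q) (fun p : V × V × V => (p.1, p.2.2)) = c.B2 (a + 1) (b + 1) := by
    rw [← P_13]; exact lw_hom (π13 V) Q
  have x23 : lw (cf Q) (fun p : V × V × V => (p.2.1, p.2.2)) = c.B2 (b + 1) (a + 1) := by
    rw [← P_23]; exact lw_hom (π23 V) Q
  have x0 : lw (cf Q) (fun p : V × V × V => (p.1, p.2.1, p.2.2)) = Q := lw_cf Q
  have h := c.step hw (fun p : V × V × V => p.1) (fun p => p.2.1) (fun p => p.2.2)
    (by rw [x1]; exact c.Dv_t _ _) (by rw [x2]; exact c.Dv_t _ _)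
    (by rw [x3]; exact c.Dv_pow _) (by rw [x13]; exact c.UB_B2 _ _)
    (by rw [x23]; exact c.UB_B2 _ _) (2 ^ (a + 1))
  -- the new law
  have y0 : lw (prod (cf Q) (cf Q)) (fun p : (V × V × V) × (V × V × V) =>
      (p.1.1 + p.2.1 + (2 ^ (a + 1)) • p.2.2.2, p.1.2.1 + p.2.2.1, p.1.2.2 + p.2.2.2)) =
      c.P (a + 2) (b + 1) := by
    have z1 := lw_add (w := cf Q) (w' := cf Q) (fun x : V × V × V => x)
      (fun x => (sh1 V (2 ^ (a + 1))) x)
    rw [lw_cf, lw_hom] at z1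
    rw [P_succ1, ← z1]
    congr 1
    funext p
    refine Prod.ext ?_ rfl
    change p.1.1 + p.2.1 + (2 ^ (a + 1)) • p.2.2.2 = p.1.1 + (p.2.1 + (2 ^ (a + 1)) • p.2.2.2)
    rw [add_assoc]
  have y13 : lw (prod (cf Q) (cf Q)) (fun p : (V × V × V) × (V × V × V) =>
      (p.1.1 + p.2.1 + (2 ^ (a + 1)) • p.2.2.2, p.1.2.2 + p.2.2.2)) = c.B2 (a + 2) (b + 1) := by
    rw [← P_13, ← y0, mp_lw]
    rfl
  have y23 : lw (prod (cf Q) (cf Q)) (fun p : (V × V × V) × (V × V × V) =>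
      (p.1.2.1 + p.2.2.1, p.1.2.2 + p.2.2.2)) = c.B2 (b + 1) (a + 2) := by
    rw [← P_23, ← y0, mp_lw]
    rfl
  have y3 : lw (prod (cf Q) (cf Q)) (fun p : (V × V × V) × (V × V × V) =>
      p.1.2.2 + p.2.2.2) = c.q ^ 2 ^ (a + 2 + (b + 1)) := by
    rw [← P_3, ← y0, mp_lw]
    rfl
  simp only [H_lw] at h
  rw [y0, y13, y23, y3, x0, x13, x23, x1, x2, x3] at h
  unfold J
  linarith

theorem J_step2 (a b : ℕ) : c.J (a + 1) (b + 2) ≤ (1 + c.η) * c.J (a + 1) (b + 1) +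
    4 * c.η * (H112.H (c.q ^ 2 ^ (a + 1 + (b + 1))) - c.h) +
    2 * c.η * (H112.H (c.t (a + 1) (b + 1)) - c.h) +
    2 * c.η * (H112.H (c.t (b + 1) (a + 1)) - c.h) := by
  set Q := c.P (a + 1) (b + 1) with hQ
  have lQ : H112.Law Q := (c.Cl_P _ _).law
  have hw := law_cf lQ
  have hww := law_prod hw hw
  have x1 : lw (cf Q) (fun p : V × V × V => p.1) = c.t (a + 1) (b + 1) := by
    rw [← P_1]; exact lw_hom (π1 V) Q
  have x2 : lw (cf Q) (fun p : V × V × V => p.2.1) = c.t (b + 1) (a + 1) := by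
    rw [← P_2]; exact lw_hom (π2 V) Q
  have x3 : lw (cf Q) (fun p : V × V × V => p.2.2) = c.q ^ 2 ^ (a + 1 + (b + 1)) := by
    rw [← P_3]; exact lw_hom (π3 V) Q
  have x13 : lw (cf Q) (fun p : V × V × V => (p.1, p.2.2)) = c.B2 (a + 1) (b + 1) := by
    rw [← P_13]; exact lw_hom (π13 V) Q
  have x23 : lw (cf Q) (fun p : V × V × V => (p.2.1, p.2.2)) = c.B2 (b + 1) (a + 1) := by
    rw [← P_23]; exact lw_hom (π23 V) Q
  have x0 : lw (cf Q) (fun p : V × V × V => (p.1, p.2.1, p.2.2)) = Q := lw_cf Q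
  have h := c.step hw (fun p : V × V × V => p.2.1) (fun p => p.1) (fun p => p.2.2)
    (by rw [x2]; exact c.Dv_t _ _) (by rw [x1]; exact c.Dv_t _ _)
    (by rw [x3]; exact c.Dv_pow _) (by rw [x23]; exact c.UB_B2 _ _)
    (by rw [x13]; exact c.UB_B2 _ _) (2 ^ (b + 1))
  have s1 : H (prod (cf Q) (cf Q)) (fun p : (V × V × V) × (V × V × V) =>
      (p.1.2.1 + p.2.2.1 + (2 ^ (b + 1)) • p.2.2.2, p.1.1 + p.2.1, p.1.2.2 + p.2.2.2)) =
      H (prod (cf Q) (cf Q)) (fun p : (V × V × V) × (V × V × V) =>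
      (p.1.1 + p.2.1, p.1.2.1 + p.2.2.1 + (2 ^ (b + 1)) • p.2.2.2, p.1.2.2 + p.2.2.2)) :=
    H_eq hww (fun x => (x.2.1, x.1, x.2.2)) (fun x => (x.2.1, x.1, x.2.2)) (fun _ => rfl)
      (fun _ => rfl)
  have s2 : H (cf Q) (fun p : V × V × V => (p.2.1, p.1, p.2.2)) =
      H (cf Q) (fun p : V × V × V => (p.1, p.2.1, p.2.2)) :=
    H_eq hw (fun x => (x.2.1, x.1, x.2.2)) (fun x => (x.2.1, x.1, x.2.2)) (fun _ => rfl)
      (fun _ => rfl)
  rw [s1, s2] at h
  -- the new law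
  have y0 : lw (prod (cf Q) (cf Q)) (fun p : (V × V × V) × (V × V × V) =>
      (p.1.1 + p.2.1, p.1.2.1 + p.2.2.1 + (2 ^ (b + 1)) • p.2.2.2, p.1.2.2 + p.2.2.2)) =
      c.P (a + 1) (b + 2) := by
    have z1 := lw_add (w := cf Q) (w' := cf Q) (fun x : V × V × V => x)
      (fun x => (sh2 V (2 ^ (b + 1))) x)
    rw [lw_cf, lw_hom] at z1
    rw [P_succ2, ← z1]
    congr 1
    funext p
    refine Prod.ext rfl (Prod.ext ?_ rfl)
    change p.1.2.1 + p.2.2.1 + (2 ^ (b + 1)) • p.2.2.2 =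
      p.1.2.1 + (p.2.2.1 + (2 ^ (b + 1)) • p.2.2.2)
    rw [add_assoc]
  have y13 : lw (prod (cf Q) (cf Q)) (fun p : (V × V × V) × (V × V × V) =>
      (p.1.1 + p.2.1, p.1.2.2 + p.2.2.2)) = c.B2 (a + 1) (b + 2) := by
    rw [← P_13, ← y0, mp_lw]
    rfl
  have y23 : lw (prod (cf Q) (cf Q)) (fun p : (V × V × V) × (V × V × V) =>
      (p.1.2.1 + p.2.2.1 + (2 ^ (b + 1)) • p.2.2.2, p.1.2.2 + p.2.2.2)) =
      c.B2 (b + 2) (a + 1) := by
    rw [← P_23, ← y0, mp_lw]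
    rfl
  have y3 : lw (prod (cf Q) (cf Q)) (fun p : (V × V × V) × (V × V × V) =>
      p.1.2.2 + p.2.2.2) = c.q ^ 2 ^ (a + 1 + (b + 2)) := by
    rw [← P_3, ← y0, mp_lw]
    rfl
  simp only [H_lw] at h
  rw [y0, y13, y23, y3, x0, x13, x23, x1, x2, x3] at h
  unfold J
  linarith

theorem J_base : c.J 1 1 ≤ 2 * c.η * (H112.H (c.q ^ 2 ^ 1) - c.h) +
    2 * c.η * (H112.H (c.t 1 0) - c.h) := by
  set Q := c.B2 1 0 with hQ
  have lQ : H112.Law Q := (c.Cl_B2 _ _).law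
  have hw := law_cf lQ
  have hww := law_prod hw hw
  have x1 : lw (cf Q) (fun p : V × V => p.1) = c.t 1 0 := by
    rw [← fst_B2]; exact lw_hom (AddMonoidHom.fst V V) Q
  have x3 : lw (cf Q) (fun p : V × V => p.2) = c.q ^ 2 ^ 1 := by
    have := c.snd_B2 1 0
    rw [add_zero] at this
    rw [← this]; exact lw_hom (AddMonoidHom.snd V V) Q
  have x13 : lw (cf Q) (fun p : V × V => (p.1, p.2)) = Q := lw_cf Q
  have h := c.base_step hw (fun p : V × V => p.1) (fun p => p.2)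
    (by rw [x1]; exact c.Dv_t _ _) (by rw [x3]; exact c.Dv_pow _)
    (by rw [x13]; exact c.UB_B2 _ _)
  have y0 : lw (prod (cf Q) (cf Q)) (fun p : (V × V) × (V × V) =>
      (p.2.2, p.1.1 + p.2.1, p.1.2 + p.2.2)) = c.P 1 1 := by
    have z1 := lw_add (w := cf Q) (w' := cf Q)
      (fun x : V × V => (0 : V × V →+ V).prod (AddMonoidHom.id (V × V)) x)
      (fun x => ((AddMonoidHom.snd V V).prod (AddMonoidHom.id (V × V))) x)
    rw [lw_hom, lw_hom] at z1
    have z2 : c.P 1 1 = mp ((0 : V × V →+ V).prod (AddMonoidHom.id (V × V))) Q *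
        mp ((AddMonoidHom.snd V V).prod (AddMonoidHom.id (V × V))) Q := by
      rw [hQ]
      unfold P B2
      rw [pow_one, Finset.prod_range_succ, Finset.prod_range_one, map_prod, map_prod]
      congr 1
      · refine Finset.prod_congr rfl fun j _ => ?_
        rw [map_pow, mp_comp, pow_zero, pow_one]
        congr 2
        ext x <;> simp [v3, v2]
      · refine Finset.prod_congr rfl fun j _ => ?_
        rw [map_pow, mp_comp, pow_zero, pow_one]
        congr 2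
        ext x <;> simp [v3, v2]
    rw [z2, ← z1]
    congr 1
    funext p
    refine Prod.ext ?_ rfl
    change p.2.2 = 0 + p.2.2
    rw [zero_add]
  have y13 : lw (prod (cf Q) (cf Q)) (fun p : (V × V) × (V × V) =>
      (p.2.2, p.1.2 + p.2.2)) = c.B2 1 1 := by
    rw [← P_13, ← y0, mp_lw]
    rfl
  have y23 : lw (prod (cf Q) (cf Q)) (fun p : (V × V) × (V × V) =>
      (p.1.1 + p.2.1, p.1.2 + p.2.2)) = c.B2 1 1 := by
    rw [← P_23, ← y0, mp_lw]
    rfl
  have y3 : lw (prod (cf Q) (cf Q)) (fun p : (V × V) × (V × V) =>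
      p.1.2 + p.2.2) = c.q ^ 2 ^ (1 + 1) := by
    rw [← P_3, ← y0, mp_lw]
    rfl
  simp only [H_lw] at h
  rw [y0, y13, y23, y3, x1, x3] at h
  unfold J
  linarith

end Mn

end W859.Tor
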