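import Pool.Agent.W859.Tor.Info
set_option autoImplicit false
set_option linter.unusedSectionVars false

/-! The bound for the mutual information, and the endgame. -/

open scoped Classical

namespace W859.Tor

open H137.PFR

namespace Mn

variable {V : Type*} [AddCommGroup V] [Fintype V] (c : Mn V)

theorem S_bound {r m : ℕ} (hr : 1 ≤ r) (hm : m ≤ 2 * r) (h1 : (1 + 4 * c.η) ^ (2 * r) ≤ 2) :
    H112.H (c.q ^ 2 ^ m) - c.h ≤ 6 * r * c.k := by
  have hη := c.hη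
  have hk := c.k_nonneg
  have g := c.growth m
  have p1 : (1 + c.η) ^ m ≤ 2 := by
    calc (1 + c.η) ^ m ≤ (1 + 4 * c.η) ^ m := pow_le_pow_left₀ (by linarith) (by linarith) m
      _ ≤ (1 + 4 * c.η) ^ (2 * r) := pow_le_pow_right₀ (by linarith) (by omega)
      _ ≤ 2 := h1
  have hm' : (m : ℝ) ≤ 2 * r := by exact_mod_cast hm
  have hr' : (1 : ℝ) ≤ r := by exact_mod_cast hr
  have : ((m : ℝ) + 1) * (1 + c.η) ^ m ≤ (3 * r) * 2 :=
    mul_le_mul (by linarith) p1 (by positivity) (by positivity)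
  have := mul_le_mul_of_nonneg_right this hk
  linarith

theorem J_rec {r : ℕ} (h1 : (1 + 4 * c.η) ^ (2 * r) ≤ 2) (h2 : 4 * r * c.η ≤ 1) :
    ∀ a b : ℕ, a + 1 ≤ r → b + 1 ≤ r → c.J (a + 1) (b + 1) ≤
      (1 + c.η) ^ (a + b) * (1 + a + b) * (104 * c.η * r * c.k) := by
  have hη := c.hη
  have hk := c.k_nonneg
  have hX : 0 ≤ 104 * c.η * r * c.k := by positivity
  have inc : ∀ a b : ℕ, a + 1 ≤ r → b + 1 ≤ r →
      4 * c.η * (H112.H (c.q ^ 2 ^ (a + 1 + (b + 1))) - c.h) +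
      2 * c.η * (H112.H (c.t (a + 1) (b + 1)) - c.h) +
      2 * c.η * (H112.H (c.t (b + 1) (a + 1)) - c.h) ≤ 104 * c.η * r * c.k := by
    intro a b ha hb
    have e1 := c.S_bound (r := r) (m := a + 1 + (b + 1)) (by omega) (by omega) h1
    have e2 := c.t_bound (r := r) (a := a) (b := b + 1) (N := a + b + 1) (by omega) ha (by omega)
      h1 h2
    have e3 := c.t_bound (r := r) (a := b) (b := a + 1) (N := a + b + 1) (by omega) hb (by omega)
      h1 h2
    have f1 := mul_le_mul_of_nonneg_left e1 hη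
    have f2 := mul_le_mul_of_nonneg_left e2 hη
    have f3 := mul_le_mul_of_nonneg_left e3 hη
    linarith
  have stp : ∀ (n : ℕ) (x y : ℝ), x ≤ (1 + c.η) ^ n * (1 + n) * (104 * c.η * r * c.k) →
      y ≤ (1 + c.η) * x + 104 * c.η * r * c.k →
      y ≤ (1 + c.η) ^ (n + 1) * (1 + (n + 1)) * (104 * c.η * r * c.k) := by
    intro n x y hx hy
    have g1 : (1 + c.η) * x ≤ (1 + c.η) * ((1 + c.η) ^ n * (1 + n) * (104 * c.η * r * c.k)) :=
      mul_le_mul_of_nonneg_left hx (by linarith)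
    have g2 : 104 * c.η * r * c.k ≤ (1 + c.η) ^ (n + 1) * (104 * c.η * r * c.k) := by
      have : (1 : ℝ) ≤ (1 + c.η) ^ (n + 1) := one_le_pow₀ (by linarith)
      nlinarith
    have g3 : (1 + c.η) * ((1 + c.η) ^ n * (1 + n) * (104 * c.η * r * c.k)) +
        (1 + c.η) ^ (n + 1) * (104 * c.η * r * c.k) =
        (1 + c.η) ^ (n + 1) * (1 + (n + 1)) * (104 * c.η * r * c.k) := by
      rw [pow_succ]; ring
    linarith
  have base : ∀ a : ℕ, a + 1 ≤ r → c.J (a + 1) 1 ≤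
      (1 + c.η) ^ a * (1 + a) * (104 * c.η * r * c.k) := by
    intro a
    induction a with
    | zero =>
      intro hr
      have g1 := c.J_base
      have e1 := c.S_bound (r := r) (m := 1) hr (by omega) h1
      have e2 := c.t_bound (r := r) (a := 0) (b := 0) (N := 0) (by omega) hr (by omega) h1 h2
      have f1 := mul_le_mul_of_nonneg_left e1 hη
      have f2 := mul_le_mul_of_nonneg_left e2 hη
      simp only [pow_zero, Nat.cast_zero, add_zero, one_mul]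
      have hp : 0 ≤ c.η * (r * c.k) := by positivity
      change c.J 1 1 ≤ _
      rw [zero_add] at f2
      nlinarith
    | succ a ih =>
      intro ha
      have g1 := ih (by omega)
      have g2 := c.J_step1 a 0
      have g3 := inc a 0 (by omega) (by omega)
      have g4 := stp a (c.J (a + 1) 1) (c.J (a + 2) 1) g1
      push_cast at g4 ⊢
      apply g4
      simp only [zero_add] at g2 g3
      linarith
  intro a b
  induction b with
  | zero =>
    intro ha _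
    have := base a ha
    simpa using this
  | succ b ih =>
    intro ha hb
    have g1 := ih ha (by omega)
    have g2 := c.J_step2 a b
    have g3 := inc a b ha (by omega)
    have g4 := stp (a + b) (c.J (a + 1) (b + 1)) (c.J (a + 1) (b + 2))
      (by push_cast; rw [← add_assoc]; exact g1)
    push_cast at g4 ⊢
    rw [show (1 : ℝ) + a + (b + 1) = 1 + (a + b + 1) by ring, ← add_assoc a b 1]
    apply g4
    linarith

theorem J_bound {r : ℕ} (hr : 1 ≤ r) (h1 : (1 + 4 * c.η) ^ (2 * r) ≤ 2)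
    (h2 : 4 * r * c.η ≤ 1) : c.J r r ≤ 416 * c.η * r ^ 2 * c.k := by
  have hη := c.hη
  have hk := c.k_nonneg
  obtain ⟨s, rfl⟩ : ∃ s, r = s + 1 := ⟨r - 1, by omega⟩
  have g := c.J_rec h1 h2 s s le_rfl le_rfl
  have p1 : (1 + c.η) ^ (s + s) ≤ 2 := by
    calc (1 + c.η) ^ (s + s) ≤ (1 + 4 * c.η) ^ (s + s) :=
          pow_le_pow_left₀ (by linarith) (by linarith) _
      _ ≤ (1 + 4 * c.η) ^ (2 * (s + 1)) := pow_le_pow_right₀ (by linarith) (by omega)
      _ ≤ 2 := h1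
  have p2 : (1 + c.η) ^ (s + s) * (1 + s + s) ≤ 2 * (2 * ((s + 1 : ℕ) : ℝ)) := by
    push_cast
    exact mul_le_mul p1 (by linarith) (by positivity) (by norm_num)
  have hX : 0 ≤ 104 * c.η * ((s + 1 : ℕ) : ℝ) * c.k := by positivity
  have := mul_le_mul_of_nonneg_right p2 hX
  calc c.J (s + 1) (s + 1) ≤ _ := g
    _ ≤ 2 * (2 * ((s + 1 : ℕ) : ℝ)) * (104 * c.η * ((s + 1 : ℕ) : ℝ) * c.k) := this
    _ = _ := by ring

open BSG in
/-- the endgame -/
theorem endgame {Ω : Type*} [Fintype Ω] {w : Ω → ℝ} (hw : Law w) (T₁ T₂ S : Ω → V)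
    (d1 : c.Dv (lw w T₁)) (d2 : c.Dv (lw w T₂)) :
    c.k ≤ 2 * H w (fun ω => (T₁ ω, S ω)) + 2 * H w (fun ω => (T₂ ω, S ω)) - 3 * H w S
      - 3 * H w (fun ω => (T₁ ω, T₂ ω, S ω)) + 2 * H w (fun ω => (T₁ ω - T₂ ω, S ω))
      + c.η * (H w T₁ + H w T₂ - c.h - (H w (fun ω => (T₁ ω, T₂ ω, S ω)) -
          H w (fun ω => (T₁ ω - T₂ ω, S ω)))) := by
  set C : Ω → V × V := fun ω => (T₁ ω - T₂ ω, S ω) with hC
  have hw' := law_ww hw C
  have hCC : ∀ q : Pr C, T₁ q.1.1 - T₂ q.1.1 = T₁ q.1.2 - T₂ q.1.2 ∧ S q.1.1 = S q.1.2 :=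
    fun q => Prod.mk.inj q.2
  have hmain := minF c.h0 c.hmin hw' (fun q => T₁ q.1.1) (fun q => T₂ q.1.2) (fun q => C q.1.1)
    (CI_ww hw.1 C T₁ T₂)
  rw [c.val] at hmain
  have m1 : H (ww w C) (fun q => C q.1.1) = H w C := by
    unfold H; rw [BSG.push_fst hw.1 C C]
  have m2 : H (ww w C) (fun q => (T₁ q.1.1, C q.1.1)) = H w (fun ω => (T₁ ω, C ω)) := by
    unfold H; rw [BSG.push_fst hw.1 C (fun ω => (T₁ ω, C ω))]
  have m3 : H (ww w C) (fun q => (T₂ q.1.2, C q.1.1)) = H w (fun ω => (T₂ ω, C ω)) := by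
    have : (fun q : Pr C => (T₂ q.1.2, C q.1.1)) = fun q => (T₂ q.1.2, C q.1.2) :=
      funext fun q => by rw [q.2]
    unfold H; rw [this, BSG.push_snd hw.1 C (fun ω => (T₂ ω, C ω))]
  have n1 : lw (ww w C) (fun q => T₁ q.1.1) = lw w T₁ := by
    apply cf_injective
    rw [cf_lw, cf_lw, BSG.push_fst hw.1 C T₁]
  have n2 : lw (ww w C) (fun q => T₂ q.1.2) = lw w T₂ := by
    apply cf_injective
    rw [cf_lw, cf_lw, BSG.push_snd hw.1 C T₂]
  have m4 := c.E0_le₁ hw' (fun q => T₁ q.1.1) (fun q => C q.1.1) (by rw [n1]; exact d1)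
  have m5 := c.E0_le₂ hw' (fun q => T₂ q.1.2) (fun q => C q.1.1) (by rw [n2]; exact d2)
  have n3 : H (ww w C) (fun q => T₁ q.1.1) = H w T₁ := by rw [H_lw, n1, ← H_lw]
  have n4 : H (ww w C) (fun q => T₂ q.1.2) = H w T₂ := by rw [H_lw, n2, ← H_lw]
  have hXC : H w (fun ω => (T₁ ω, C ω)) = H w (fun ω => (T₁ ω, T₂ ω, S ω)) :=
    H_eq hw (fun a => (a.1, a.1 - a.2.1, a.2.2)) (fun a => (a.1, a.1 - a.2.1, a.2.2))
      (fun ω => by simp [hC]) (fun ω => rfl)
  have hYC : H w (fun ω => (T₂ ω, C ω)) = H w (fun ω => (T₁ ω, T₂ ω, S ω)) :=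
    H_eq hw (fun a => (a.2.1 + a.1, a.1, a.2.2)) (fun a => (a.2.1, a.1 - a.2.1, a.2.2))
      (fun ω => by simp [hC]) (fun ω => rfl)
  rw [m1, m2, m3, hXC, hYC] at hmain
  rw [m1, n3] at m4
  rw [m1, n4] at m5
  -- the main entropy bound
  have hD : H (ww w C) (fun q => (T₁ q.1.1 + T₂ q.1.2, C q.1.1)) - H w C ≤
      2 * H w (fun ω => (T₁ ω, S ω)) + 2 * H w (fun ω => (T₂ ω, S ω)) + H w C
        - 2 * H w (fun ω => (T₁ ω, T₂ ω, S ω)) - 3 * H w S := by
    have s1 := H_submod hw' (fun q : Pr C => T₁ q.1.1 + T₂ q.1.2)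
      (fun q => T₁ q.1.1 - T₂ q.1.1) (fun q => S q.1.1)
    have s2 : H (ww w C) (fun q => S q.1.1) = H w S := by
      unfold H; rw [BSG.push_fst hw.1 C S]
    have s3 : H (ww w C) (fun q => (T₁ q.1.1 - T₂ q.1.1, S q.1.1)) = H w C := m1
    have s4 : H (ww w C) (fun q => (T₁ q.1.1 + T₂ q.1.2, T₁ q.1.1 - T₂ q.1.1, S q.1.1)) =
        H (ww w C) (fun q => (T₁ q.1.1 + T₂ q.1.2, C q.1.1)) := rfl
    rw [s2, s3, s4] at s1
    have s5 := H_submod hw' (fun q : Pr C => T₁ q.1.1) (fun q => T₂ q.1.1)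
      (fun q => (T₁ q.1.1 + T₂ q.1.2, S q.1.1))
    have s6 : H (ww w C) (fun q => (T₁ q.1.1, T₂ q.1.1, T₁ q.1.1 + T₂ q.1.2, S q.1.1)) =
        H (ww w C) (fun q => (T₁ q.1.1, T₁ q.1.2, C q.1.1)) := by
      refine H_eq hw'
        (fun a => (a.1, a.2.2.1 - a.2.1, a.1 - a.2.1, a.2.2.2))
        (fun a => (a.1, a.1 - a.2.2.1, a.1 + (a.2.1 - a.2.2.1), a.2.2.2))
        (fun q => ?_) (fun q => ?_)
      · have h3 := (hCC q).1
        simp only [hC, Prod.mk.injEq, true_and, and_true]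
        have h4 : T₁ q.1.1 + T₂ q.1.2 - T₂ q.1.1 = (T₁ q.1.1 - T₂ q.1.1) + T₂ q.1.2 := by abel
        rw [h4, h3]; abel
      · have h3 := (hCC q).1
        simp only [hC, Prod.mk.injEq, true_and, and_true]
        constructor
        · abel
        · rw [h3]; abel
    have s7 := H_CI hw' (CI_ww hw.1 C T₁ T₁)
    have s8 : H (ww w C) (fun q => (T₁ q.1.2, C q.1.1)) = H w (fun ω => (T₁ ω, C ω)) := by
      have : (fun q : Pr C => (T₁ q.1.2, C q.1.1)) = fun q => (T₁ q.1.2, C q.1.2) :=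
        funext fun q => by rw [q.2]
      unfold H; rw [this, BSG.push_snd hw.1 C (fun ω => (T₁ ω, C ω))]
    rw [m1, m2, s8, hXC] at s7
    rw [s6] at s5
    have s9 : H (ww w C) (fun q => (T₁ q.1.1, T₁ q.1.1 + T₂ q.1.2, S q.1.1)) ≤
        H w (fun ω => (T₁ ω, S ω)) + H w (fun ω => (T₂ ω, S ω)) - H w S := by
      have t1 : H (ww w C) (fun q => (T₁ q.1.1, T₁ q.1.1 + T₂ q.1.2, S q.1.1)) =
          H (ww w C) (fun q => (T₁ q.1.1, T₂ q.1.2, S q.1.1)) :=
        H_eq hw' (fun a => (a.1, a.2.1 - a.1, a.2.2)) (fun a => (a.1, a.1 + a.2.1, a.2.2))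
          (fun q => by simp) (fun q => rfl)
      have t2 := H_submod hw' (fun q : Pr C => T₁ q.1.1) (fun q => T₂ q.1.2) (fun q => S q.1.1)
      have t3 : H (ww w C) (fun q => (T₁ q.1.1, S q.1.1)) = H w (fun ω => (T₁ ω, S ω)) := by
        unfold H; rw [BSG.push_fst hw.1 C (fun ω => (T₁ ω, S ω))]
      have t4 : H (ww w C) (fun q => (T₂ q.1.2, S q.1.1)) = H w (fun ω => (T₂ ω, S ω)) := by
        have : (fun q : Pr C => (T₂ q.1.2, S q.1.1)) = fun q => (T₂ q.1.2, S q.1.2) :=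
          funext fun q => by rw [(hCC q).2]
        unfold H; rw [this, BSG.push_snd hw.1 C (fun ω => (T₂ ω, S ω))]
      rw [s2, t3, t4] at t2
      rw [t1]
      linarith
    have s10 : H (ww w C) (fun q => (T₂ q.1.1, T₁ q.1.1 + T₂ q.1.2, S q.1.1)) ≤
        H w (fun ω => (T₁ ω, S ω)) + H w (fun ω => (T₂ ω, S ω)) - H w S := by
      have t1 : H (ww w C) (fun q => (T₂ q.1.1, T₁ q.1.1 + T₂ q.1.2, S q.1.1)) =
          H (ww w C) (fun q => (T₂ q.1.1, T₁ q.1.2, S q.1.1)) := by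
        refine H_eq hw' (fun a => (a.1, a.2.1 - a.1, a.2.2)) (fun a => (a.1, a.1 + a.2.1, a.2.2))
          (fun q => ?_) (fun q => ?_)
        · have h3 := (hCC q).1
          simp only [Prod.mk.injEq, true_and, and_true]
          have h4 : T₁ q.1.1 + T₂ q.1.2 - T₂ q.1.1 = (T₁ q.1.1 - T₂ q.1.1) + T₂ q.1.2 := by abel
          rw [h4, h3]; abel
        · have h3 := (hCC q).1
          simp only [Prod.mk.injEq, true_and, and_true]
          have h4 : T₂ q.1.1 + T₁ q.1.2 = T₂ q.1.1 + ((T₁ q.1.2 - T₂ q.1.2) + T₂ q.1.2) := by abel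
          rw [h4, ← h3]; abel
      have t2 := H_submod hw' (fun q : Pr C => T₂ q.1.1) (fun q => T₁ q.1.2) (fun q => S q.1.1)
      have t3 : H (ww w C) (fun q => (T₂ q.1.1, S q.1.1)) = H w (fun ω => (T₂ ω, S ω)) := by
        unfold H; rw [BSG.push_fst hw.1 C (fun ω => (T₂ ω, S ω))]
      have t4 : H (ww w C) (fun q => (T₁ q.1.2, S q.1.1)) = H w (fun ω => (T₁ ω, S ω)) := by
        have : (fun q : Pr C => (T₁ q.1.2, S q.1.1)) = fun q => (T₁ q.1.2, S q.1.2) :=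
          funext fun q => by rw [(hCC q).2]
        unfold H; rw [this, BSG.push_snd hw.1 C (fun ω => (T₁ ω, S ω))]
      rw [s2, t3, t4] at t2
      rw [t1]
      linarith
    linarith
  have k1 := mul_le_mul_of_nonneg_left m4 c.hη
  have k2 := mul_le_mul_of_nonneg_left m5 c.hη
  have hh : c.η * (H112.H c.p₁ + H112.H c.p₂) = 2 * (c.η * c.h) := by
    have : c.h = (H112.H c.p₁ + H112.H c.p₂) / 2 := rfl
    rw [this]; ring
  have hCe : H w C = H w (fun ω => (T₁ ω - T₂ ω, S ω)) := rfl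
  rw [hCe] at hmain hD
  nlinarith

end Mn

end W859.Tor
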