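import Pool.Agent.W859.Tor.Star
set_option autoImplicit false
set_option linter.unusedSectionVars false

/-! Lower bounds and the recursion for the mutual information. -/

open scoped Classical

namespace W859.Tor

open H137.PFR

namespace Mn

variable {V : Type*} [AddCommGroup V] [Fintype V] (c : Mn V)
variable {Ω γ : Type*} [Fintype Ω] [Fintype γ]

/-- the law contains a copy of `q` as an independent summand -/
def Dv (b : M V) : Prop := ∃ r : M V, H112.Law r ∧ b = c.q * r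

/-- the reference law in the group algebra -/
noncomputable def m₀ : M V := AddMonoidAlgebra.ofCoeff (toF c.μ₀)

theorem cf_m₀ : cf c.m₀ = c.μ₀ := rfl

theorem law_m₀ : H112.Law c.m₀ := isLaw_toF c.h0

theorem E₁_eq : c.E₁ = H112.H (c.m₀ * c.p₁) := by
  unfold E₁
  rw [← ent_cf, cf_mul, cf_m₀]

theorem E₂_eq : c.E₂ = H112.H (c.m₀ * c.p₂) := by
  unfold E₂
  rw [← ent_cf, cf_mul, cf_m₀]

theorem E0_le₁ {w : Ω → ℝ} (hw : Law w) (Y : Ω → V) (Z : Ω → γ) (hY : c.Dv (lw w Y)) :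
    E0 c.μ₀ w Y Z - H w Z ≤ c.E₁ + H w Y - H112.H c.p₁ := by
  obtain ⟨r, hr, he⟩ := hY
  have h1 := E0_le_of_law c.h0 hw Y Z (μ := push w Y) rfl
  rw [← cf_lw, ← c.cf_m₀, ← cf_mul, ent_cf] at h1
  have h2 := H112.H_submod c.law_m₀ c.l₁ (c.l₂.mul hr)
  have e1 : c.m₀ * c.p₁ * (c.p₂ * r) = c.m₀ * lw w Y := by rw [he]; unfold q; ring
  have e2 : c.p₁ * (c.p₂ * r) = lw w Y := by rw [he]; unfold q; ring
  rw [e1, e2, ← c.E₁_eq] at h2
  rw [H_lw w Y]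
  rw [c.cf_m₀] at h1
  linarith

theorem E0_le₂ {w : Ω → ℝ} (hw : Law w) (Y : Ω → V) (Z : Ω → γ) (hY : c.Dv (lw w Y)) :
    E0 c.μ₀ w Y Z - H w Z ≤ c.E₂ + H w Y - H112.H c.p₂ := by
  obtain ⟨r, hr, he⟩ := hY
  have h1 := E0_le_of_law c.h0 hw Y Z (μ := push w Y) rfl
  rw [← cf_lw, ← c.cf_m₀, ← cf_mul, ent_cf] at h1
  have h2 := H112.H_submod c.law_m₀ c.l₂ (c.l₁.mul hr)
  have e1 : c.m₀ * c.p₂ * (c.p₁ * r) = c.m₀ * lw w Y := by rw [he]; unfold q; ring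
  have e2 : c.p₂ * (c.p₁ * r) = lw w Y := by rw [he]; unfold q; ring
  rw [e1, e2, ← c.E₂_eq] at h2
  rw [H_lw w Y]
  rw [c.cf_m₀] at h1
  linarith

theorem LB1 {w : Ω → ℝ} (hw : Law w) (Y : Ω → V) (Z : Ω → γ) (hY : c.Dv (lw w Y)) :
    (1 + c.η) * (H w (fun ω => (Y ω, Z ω)) - H w Z) + c.k + c.η * c.h - 2 * c.η * H w Y ≤
      H (prod w w) (fun p => (Y p.1 + Y p.2, (Z p.1, Z p.2))) - 2 * H w Z := by
  have h1 := c.min_prod hw hw Y Z Y Z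
  have h2 := mul_le_mul_of_nonneg_left (c.E0_le₁ hw Y Z hY) c.hη
  have h3 := mul_le_mul_of_nonneg_left (c.E0_le₂ hw Y Z hY) c.hη
  have hh : c.h = (H112.H c.p₁ + H112.H c.p₂) / 2 := rfl
  have h4 : c.η * H112.H c.p₁ + c.η * H112.H c.p₂ = 2 * (c.η * c.h) := by rw [hh]; ring
  nlinarith

theorem LB2 {w : Ω → ℝ} (hw : Law w) (Y₁ Y₂ : Ω → V) (Z : Ω → γ) (h1 : c.Dv (lw w Y₁))
    (h2 : c.Dv (lw w Y₂)) :
    (1 + c.η) * (H w (fun ω => (Y₂ ω, Y₁ ω, Z ω)) - H w Z) + 2 * c.k + 2 * c.η * c.h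
        - 2 * c.η * (H w Y₁ + H w Y₂) ≤
      H (prod w w) (fun p => (Y₂ p.1 + Y₂ p.2, Y₁ p.1 + Y₁ p.2, (Z p.1, Z p.2))) - 2 * H w Z := by
  have hww := law_prod hw hw
  have a1 := c.LB1 hw Y₁ Z h1
  have a2 := c.LB1 hw Y₂ (fun ω => (Y₁ ω, Z ω)) h2
  have a3 := H_submod hww (fun p : Ω × Ω => Y₂ p.1 + Y₂ p.2) (fun p => (Y₁ p.1, Y₁ p.2))
    (fun p => (Y₁ p.1 + Y₁ p.2, (Z p.1, Z p.2)))
  have e1 : H (prod w w) (fun p => (Y₂ p.1 + Y₂ p.2, (Y₁ p.1, Y₁ p.2),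
      (Y₁ p.1 + Y₁ p.2, (Z p.1, Z p.2)))) =
      H (prod w w) (fun p => (Y₂ p.1 + Y₂ p.2, ((Y₁ p.1, Z p.1), (Y₁ p.2, Z p.2)))) :=
    H_eq hww (fun a => (a.1, ((a.2.1.1, a.2.2.2.1), (a.2.1.2, a.2.2.2.2))))
      (fun a => (a.1, (a.2.1.1, a.2.2.1), (a.2.1.1 + a.2.2.1, (a.2.1.2, a.2.2.2))))
      (fun _ => rfl) (fun _ => rfl)
  have e2 : H (prod w w) (fun p => ((Y₁ p.1, Y₁ p.2), (Y₁ p.1 + Y₁ p.2, (Z p.1, Z p.2)))) =
      2 * H w (fun ω => (Y₁ ω, Z ω)) := by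
    have e3 := H_prod hw hw (fun ω => (Y₁ ω, Z ω)) (fun ω => (Y₁ ω, Z ω))
    rw [two_mul, ← e3]
    exact H_eq hww (fun a => ((a.1.1, a.2.2.1), (a.1.2, a.2.2.2)))
      (fun a => ((a.1.1, a.2.1), (a.1.1 + a.2.1, (a.1.2, a.2.2))))
      (fun _ => rfl) (fun _ => rfl)
  rw [e1, e2] at a3
  linarith

/-- one doubling step for the mutual information -/
theorem step {w : Ω → ℝ} (hw : Law w) (T₁ T₂ S : Ω → V) (d1 : c.Dv (lw w T₁))
    (d2 : c.Dv (lw w T₂)) (dS : c.Dv (lw w S)) (u1 : c.UB 2 (lw w (fun ω => (T₁ ω, S ω))))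
    (u2 : c.UB 2 (lw w (fun ω => (T₂ ω, S ω)))) (n : ℕ) :
    H (prod w w) (fun p => (T₁ p.1 + T₁ p.2 + n • S p.2, S p.1 + S p.2)) +
      H (prod w w) (fun p => (T₂ p.1 + T₂ p.2, S p.1 + S p.2)) -
      H (prod w w) (fun p => (T₁ p.1 + T₁ p.2 + n • S p.2, T₂ p.1 + T₂ p.2, S p.1 + S p.2)) -
      H (prod w w) (fun p => S p.1 + S p.2) ≤
    (1 + c.η) * (H w (fun ω => (T₁ ω, S ω)) + H w (fun ω => (T₂ ω, S ω)) -
      H w (fun ω => (T₁ ω, T₂ ω, S ω)) - H w S) + 4 * c.η * (H w S - c.h) +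
      2 * c.η * (H w T₁ - c.h) + 2 * c.η * (H w T₂ - c.h) := by
  have hww := law_prod hw hw
  -- data processing
  have b1 := H_submod hww (fun p : Ω × Ω => (T₁ p.1 + T₁ p.2, S p.2)) (fun p => T₂ p.1 + T₂ p.2)
    (fun p => (T₁ p.1 + T₁ p.2 + n • S p.2, S p.1 + S p.2))
  have b2 : H (prod w w) (fun p => ((T₁ p.1 + T₁ p.2, S p.2), T₂ p.1 + T₂ p.2,
      (T₁ p.1 + T₁ p.2 + n • S p.2, S p.1 + S p.2))) =
      H (prod w w) (fun p => (T₂ p.1 + T₂ p.2, T₁ p.1 + T₁ p.2, (S p.1, S p.2))) :=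
    H_eq hww (fun a => (a.2.1, a.1.1, (a.2.2.2 - a.1.2, a.1.2)))
      (fun a => ((a.2.1, a.2.2.2), a.1, (a.2.1 + n • a.2.2.2, a.2.2.1 + a.2.2.2)))
      (fun p => by simp) (fun p => by simp)
  have b3 : H (prod w w) (fun p => ((T₁ p.1 + T₁ p.2, S p.2),
      (T₁ p.1 + T₁ p.2 + n • S p.2, S p.1 + S p.2))) =
      H (prod w w) (fun p => (T₁ p.1 + T₁ p.2, (S p.1, S p.2), S p.1 + S p.2)) :=
    H_eq hww (fun a => (a.1.1, (a.2.2 - a.1.2, a.1.2), a.2.2))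
      (fun a => ((a.1, a.2.1.2), (a.1 + n • a.2.1.2, a.2.2)))
      (fun p => by simp) (fun p => by simp)
  have b4 : H (prod w w) (fun p => (T₂ p.1 + T₂ p.2,
      (T₁ p.1 + T₁ p.2 + n • S p.2, S p.1 + S p.2))) =
      H (prod w w) (fun p => (T₁ p.1 + T₁ p.2 + n • S p.2, T₂ p.1 + T₂ p.2, S p.1 + S p.2)) :=
    H_eq hww (fun a => (a.2.1, a.1, a.2.2)) (fun a => (a.2.1, a.1, a.2.2))
      (fun p => rfl) (fun p => rfl)
  rw [b2, b3, b4] at b1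
  -- dropping `S p.2`
  have b5 := H_submod hww (fun p : Ω × Ω => T₁ p.1 + T₁ p.2) (fun p => (S p.1, S p.2))
    (fun p => S p.1 + S p.2)
  have b6 : H (prod w w) (fun p => ((S p.1, S p.2), S p.1 + S p.2)) = 2 * H w S := by
    rw [two_mul, ← H_prod hw hw S S]
    exact H_eq hww (fun a => a.1) (fun a => (a, a.1 + a.2)) (fun _ => rfl) (fun _ => rfl)
  rw [b6] at b5
  -- bounds
  have l1 := c.LB2 hw T₁ T₂ S d1 d2
  have l2 := c.LB1 hw S (fun _ => ()) dS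
  have l3 : H w (fun ω => (S ω, ())) = H w S := H_unit_right hw S
  have l4 : H (prod w w) (fun p => (S p.1 + S p.2, ((), ()))) = H (prod w w) (fun p => S p.1 + S p.2) :=
    H_eq hww (fun a => a.1) (fun a => (a, ((), ()))) (fun _ => rfl) (fun _ => rfl)
  rw [l3, l4, H_unit hw] at l2
  have l5 : H w (fun ω => (T₂ ω, T₁ ω, S ω)) = H w (fun ω => (T₁ ω, T₂ ω, S ω)) :=
    H_eq hw (fun a => (a.2.1, a.1, a.2.2)) (fun a => (a.2.1, a.1, a.2.2))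
      (fun p => rfl) (fun p => rfl)
  rw [l5] at l1
  have v1 := u1.2
  have v2 := u2.2
  rw [← H_lw_add, ← H_lw] at v1 v2
  have v3 : H (prod w w) (fun p => ((T₁ p.1, S p.1) : V × V) + (T₁ p.2, S p.2)) =
      H (prod w w) (fun p => (T₁ p.1 + T₁ p.2, S p.1 + S p.2)) := rfl
  have v4 : H (prod w w) (fun p => ((T₂ p.1, S p.1) : V × V) + (T₂ p.2, S p.2)) =
      H (prod w w) (fun p => (T₂ p.1 + T₂ p.2, S p.1 + S p.2)) := rfl
  rw [v3] at v1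
  rw [v4] at v2
  linarith

/-- the first step -/
theorem base_step {w : Ω → ℝ} (hw : Law w) (T₂ S : Ω → V)
    (d2 : c.Dv (lw w T₂)) (dS : c.Dv (lw w S))
    (u2 : c.UB 2 (lw w (fun ω => (T₂ ω, S ω)))) :
    H (prod w w) (fun p => (S p.2, S p.1 + S p.2)) +
      H (prod w w) (fun p => (T₂ p.1 + T₂ p.2, S p.1 + S p.2)) -
      H (prod w w) (fun p => (S p.2, T₂ p.1 + T₂ p.2, S p.1 + S p.2)) -
      H (prod w w) (fun p => S p.1 + S p.2) ≤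
    2 * c.η * (H w S - c.h) + 2 * c.η * (H w T₂ - c.h) := by
  have hww := law_prod hw hw
  have b2 : H (prod w w) (fun p => (S p.2, T₂ p.1 + T₂ p.2, S p.1 + S p.2)) =
      H (prod w w) (fun p => (T₂ p.1 + T₂ p.2, (S p.1, S p.2))) :=
    H_eq hww (fun a => (a.2.1, (a.2.2 - a.1, a.1)))
      (fun a => (a.2.2, a.1, a.2.1 + a.2.2))
      (fun p => by simp) (fun p => by simp)
  have b6 : H (prod w w) (fun p => (S p.2, S p.1 + S p.2)) = 2 * H w S := by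
    rw [two_mul, ← H_prod hw hw S S]
    exact H_eq hww (fun a => (a.2 - a.1, a.1)) (fun a => (a.2, a.1 + a.2)) (fun _ => by simp)
      (fun _ => rfl)
  have l1 := c.LB1 hw T₂ S d2
  have l2 := c.LB1 hw S (fun _ => ()) dS
  have l3 : H w (fun ω => (S ω, ())) = H w S := H_unit_right hw S
  have l4 : H (prod w w) (fun p => (S p.1 + S p.2, ((), ()))) = H (prod w w) (fun p => S p.1 + S p.2) :=
    H_eq hww (fun a => a.1) (fun a => (a, ((), ()))) (fun _ => rfl) (fun _ => rfl)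
  rw [l3, l4, H_unit hw] at l2
  have v2 := u2.2
  rw [← H_lw_add, ← H_lw] at v2
  have v4 : H (prod w w) (fun p => ((T₂ p.1, S p.1) : V × V) + (T₂ p.2, S p.2)) =
      H (prod w w) (fun p => (T₂ p.1 + T₂ p.2, S p.1 + S p.2)) := rfl
  rw [v4] at v2
  rw [b2, b6]
  linarith

end Mn

end W859.Tor
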