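import Pool.Agent.W859.Tor.Fin
set_option autoImplicit false
set_option linter.unusedSectionVars false

/-! Marton's conjecture for groups of exponent `m` with an exponent `O(log² m)`. -/

open scoped Pointwise

namespace W859.Tor

theorem num_ineq (L : ℕ) : 62 * (3 * L + 10) ≤ 2 ^ (L + 10) := by
  induction L with
  | zero => norm_num
  | succ L ih =>
    have : 2 ^ (L + 1 + 10) = 2 * 2 ^ (L + 10) := by rw [show L + 1 + 10 = (L + 10) + 1 by ring, pow_succ, mul_comm]
    rw [this]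
    omega

theorem param (m : ℕ) (hm : 0 < m) :
    60 * m * (3 * (Nat.log 2 m + 1) + 10) + 2 ≤ 2 ^ (3 * (Nat.log 2 m + 1) + 10) / m := by
  obtain ⟨L, hL⟩ : ∃ L, L = Nat.log 2 m + 1 := ⟨_, rfl⟩
  rw [← hL]
  have h1 : m ≤ 2 ^ L := by
    rw [hL]; exact (Nat.lt_pow_succ_log_self (by norm_num) m).le
  rw [Nat.le_div_iff_mul_le hm]
  have h2 := num_ineq L
  calc (60 * m * (3 * L + 10) + 2) * m ≤ (60 * m * (3 * L + 10) + 2 * (m * (3 * L + 10))) * m := by
        apply Nat.mul_le_mul_right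
        have : 1 ≤ m * (3 * L + 10) := Nat.mul_pos hm (by omega)
        omega
    _ = (m * m) * (62 * (3 * L + 10)) := by ring
    _ ≤ (2 ^ L * 2 ^ L) * 2 ^ (L + 10) := by
        apply Nat.mul_le_mul (Nat.mul_le_mul h1 h1) h2
    _ = 2 ^ (3 * L + 10) := by
        rw [← pow_add, ← pow_add]; congr 1; ring

theorem exponent {m : ℕ} (hm : 0 < m) {K : ℝ} (hK : 1 ≤ K) :
    (m : ℝ) * Real.exp ((4000 * ((3 * (Nat.log 2 m + 1) + 10 : ℕ) : ℝ) ^ 2 + 5) * Real.log K) ≤
      (2 * K) ^ (1500000 * (Real.log (2 * m)) ^ 2) := by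
  have hm1 : (1 : ℝ) ≤ m := by exact_mod_cast hm
  have hlogK : 0 ≤ Real.log K := Real.log_nonneg hK
  obtain ⟨L, hL⟩ : ∃ L : ℝ, L = (Nat.log 2 m : ℝ) + 1 := ⟨_, rfl⟩
  have hL1 : 1 ≤ L := by rw [hL]; linarith [Nat.cast_nonneg (α := ℝ) (Nat.log 2 m)]
  obtain ⟨x, hx⟩ : ∃ x : ℝ, x = Real.log (2 * m) := ⟨_, rfl⟩
  have h2 : L * Real.log 2 ≤ x := by
    rw [hL, hx, ← Nat.cast_succ, ← Real.log_pow]
    apply Real.log_le_log (by positivity)
    have : 2 ^ Nat.log 2 m ≤ m := Nat.pow_log_le_self 2 (by omega)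
    have h3 : ((2 : ℝ)) ^ Nat.log 2 m ≤ m := by exact_mod_cast this
    rw [Nat.succ_eq_add_one, pow_succ]
    linarith
  have hlog2 := Real.log_two_gt_d9
  have hlog2' := Real.log_two_lt_d9
  have h3 : 0.6931 * L ≤ x := by nlinarith
  have hx0 : 0 < x := by linarith
  have h4 : L ^ 2 * 0.48 ≤ x ^ 2 := by nlinarith
  have hcast : ((3 * (Nat.log 2 m + 1) + 10 : ℕ) : ℝ) = 3 * L + 10 := by
    rw [hL]; push_cast; ring
  have hmle : Real.log m ≤ L * Real.log 2 := by
    have h5 : m ≤ 2 ^ (Nat.log 2 m + 1) := (Nat.lt_pow_succ_log_self (by norm_num) m).le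
    have h6 : (m : ℝ) ≤ 2 ^ (Nat.log 2 m + 1) := by exact_mod_cast h5
    have h7 := Real.log_le_log (by linarith) h6
    rw [Real.log_pow] at h7
    rw [hL]
    push_cast at h7
    exact h7
  rw [hcast, ← hx, Real.rpow_def_of_pos (by linarith), Real.log_mul (by norm_num) (by linarith)]
  have h8 : (m : ℝ) = Real.exp (Real.log m) := (Real.exp_log (by linarith)).symm
  rw [h8, ← Real.exp_add]
  apply Real.exp_le_exp.2
  have h9 : 4000 * (3 * L + 10) ^ 2 + 5 ≤ 700000 * L ^ 2 := by nlinarith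
  have h10 : 700000 * L ^ 2 ≤ 1500000 * x ^ 2 := by nlinarith
  have h11 : (4000 * (3 * L + 10) ^ 2 + 5) * Real.log K ≤ 1500000 * x ^ 2 * Real.log K :=
    mul_le_mul_of_nonneg_right (h9.trans h10) hlogK
  have h12 : L * Real.log 2 ≤ 1500000 * x ^ 2 * Real.log 2 := by
    apply mul_le_mul_of_nonneg_right _ (by linarith)
    nlinarith
  have h13 : (Real.log 2 + Real.log K) * (1500000 * x ^ 2) =
      1500000 * x ^ 2 * Real.log 2 + 1500000 * x ^ 2 * Real.log K := by ring
  rw [h13]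
  linarith

theorem cover_fin' {V : Type*} [AddCommGroup V] [Fintype V] [d : DecidableEq V] {m r : ℕ}
    (hm0 : 0 < m) (hm : ∀ x : V, m • x = 0) (hr : 1 ≤ r)
    (hu : 60 * m * r + 2 ≤ 2 ^ r / m) {A : Finset V} (hA : A.Nonempty) {K : ℝ}
    (hK : ((A + A).card : ℝ) ≤ K * A.card) :
    ∃ (G : AddSubgroup V) (T : Finset V), Nat.card G ≤ A.card ∧
      (T.card : ℝ) ≤ m * Real.exp ((4000 * (r : ℝ) ^ 2 + 5) * Real.log K) ∧
      ∀ a ∈ A, ∃ t ∈ T, a - t ∈ G := by
  have hd : d = (fun a b => Classical.propDecidable (a = b)) := Subsingleton.elim _ _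
  subst hd
  exact cover_fin hm0 hm hr hu hA hK

open scoped Classical in
theorem marton_aux {Γ : Type*} [AddCommGroup Γ] {m : ℕ} (hm : 0 < m)
    (htor : ∀ x : Γ, m • x = 0) (K : ℝ) (A : Finset Γ) (hA : A.Nonempty)
    (hK : ((A + A).card : ℝ) ≤ K * (A.card : ℝ)) :
    ∃ (H : AddSubgroup Γ) (T : Finset Γ), Finite H ∧ Nat.card H ≤ A.card ∧
      (T.card : ℝ) ≤ (2 * K) ^ (1500000 * (Real.log (2 * m)) ^ 2) ∧
      ∀ a ∈ A, ∃ t ∈ T, a - t ∈ H := by
  have hK1 : 1 ≤ K := by
    have hc : (0 : ℝ) < A.card := by exact_mod_cast hA.card_pos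
    have h1 : (A.card : ℝ) ≤ (A + A).card := by
      exact_mod_cast Finset.card_le_card_add_right hA
    nlinarith
  obtain ⟨hfin, -⟩ := H375.Tor.closure_card m hm htor A
  obtain ⟨V, hV⟩ : ∃ V : AddSubgroup Γ, V = AddSubgroup.closure (A : Set Γ) := ⟨_, rfl⟩
  rw [← hV] at hfin
  have : Fintype V := Fintype.ofFinite _
  have hmem : ∀ a ∈ A, a ∈ V := fun a ha => by
    rw [hV]; exact AddSubgroup.subset_closure ha
  obtain ⟨A', hA'⟩ : ∃ A' : Finset V, A'.image V.subtype = A := by
    refine ⟨A.attach.image fun a => ⟨a.1, hmem a.1 a.2⟩, ?_⟩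
    ext x
    simp only [Finset.mem_image, Finset.mem_attach, true_and, Subtype.exists]
    constructor
    · rintro ⟨a, ha, ⟨b, hb, h⟩, rfl⟩
      have h2 := congrArg Subtype.val h
      simp only at h2
      subst h2
      exact hb
    · intro hx
      exact ⟨x, hmem x hx, ⟨x, hx, rfl⟩, rfl⟩
  have hinj : Function.Injective V.subtype := V.subtype_injective
  have hA'ne : A'.Nonempty := by
    rw [← hA'] at hA; exact Finset.image_nonempty.1 hA
  have hcard : A'.card = A.card := by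
    rw [← hA', Finset.card_image_of_injective _ hinj]
  have hcard2 : (A' + A').card = (A + A).card := by
    rw [← hA', ← Finset.image_add, Finset.card_image_of_injective _ hinj]
  have hK' : ((A' + A').card : ℝ) ≤ K * A'.card := by rw [hcard2, hcard]; exact hK
  have htor' : ∀ x : V, m • x = 0 := by
    intro x
    apply Subtype.ext
    rw [AddSubgroup.coe_nsmul, AddSubgroup.coe_zero]
    exact htor x
  obtain ⟨G, T, hG, hT, hcov⟩ := cover_fin' hm htor' (r := 3 * (Nat.log 2 m + 1) + 10)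
    (by omega) (param m hm) hA'ne (K := K) hK'
  refine ⟨G.map V.subtype, T.image V.subtype, ?_, ?_, ?_, ?_⟩
  · have : (G.map V.subtype : Set Γ).Finite := by
      rw [AddSubgroup.coe_map]
      exact (Set.toFinite (G : Set V)).image _
    exact this.to_subtype
  · have h1 : Nat.card (G.map V.subtype) = Nat.card G :=
      Nat.card_congr (G.equivMapOfInjective V.subtype hinj).toEquiv.symm
    rw [h1, ← hcard]
    exact hG
  · refine le_trans ?_ (exponent hm hK1)
    refine le_trans ?_ hT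
    exact_mod_cast Finset.card_image_le
  · intro a ha
    rw [← hA'] at ha
    obtain ⟨a', ha', rfl⟩ := Finset.mem_image.1 ha
    obtain ⟨t, ht, h⟩ := hcov a' ha'
    exact ⟨V.subtype t, Finset.mem_image_of_mem _ ht, ⟨a' - t, h, by simp⟩⟩

theorem marton {Γ : Type*} [AddCommGroup Γ] [d : DecidableEq Γ] {m : ℕ} (hm : 0 < m)
    (htor : ∀ x : Γ, m • x = 0) (K : ℝ) (A : Finset Γ) (hA : A.Nonempty)
    (hK : ((A + A).card : ℝ) ≤ K * (A.card : ℝ)) :
    ∃ (H : AddSubgroup Γ) (T : Finset Γ), Finite H ∧ Nat.card H ≤ A.card ∧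
      (T.card : ℝ) ≤ (2 * K) ^ (1500000 * (Real.log (2 * m)) ^ 2) ∧
      ∀ a ∈ A, ∃ t ∈ T, a - t ∈ H := by
  have hd : d = (fun a b => Classical.propDecidable (a = b)) := Subsingleton.elim _ _
  subst hd
  exact marton_aux hm htor K A hA hK

/-- the exponent must be at least of order `log m`, for every `m` -/
theorem lower (m : ℕ) (hm : 0 < m) : ∃ A : Finset (ZMod m), A.Nonempty ∧
    (A + A).card ≤ 2 * A.card ∧
    ∀ (H : AddSubgroup (ZMod m)) (T : Finset (ZMod m)), Nat.card H ≤ A.card →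
      (∀ a ∈ A, ∃ t ∈ T, a - t ∈ H) → Nat.sqrt m ≤ T.card := by
  classical
  have : NeZero m := ⟨by omega⟩
  set s := Nat.sqrt m with hs
  have hs1 : 1 ≤ s := Nat.sqrt_pos.2 hm
  have hss : s * s ≤ m := Nat.sqrt_le m
  have hsm : s ≤ m := Nat.sqrt_le_self m
  let A : Finset (ZMod m) := (Finset.range s).image (fun n : ℕ => (n : ZMod m))
  have hinj : Set.InjOn (fun n : ℕ => (n : ZMod m)) (Finset.range s : Finset ℕ) := by
    intro x hx y hy hxy
    have hx' : x < m := lt_of_lt_of_le (Finset.mem_range.1 hx) hsm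
    have hy' : y < m := lt_of_lt_of_le (Finset.mem_range.1 hy) hsm
    have h := (ZMod.natCast_eq_natCast_iff' x y m).1 hxy
    rwa [Nat.mod_eq_of_lt hx', Nat.mod_eq_of_lt hy'] at h
  have hcard : A.card = s := by
    rw [Finset.card_image_of_injOn hinj, Finset.card_range]
  refine ⟨A, ?_, ?_, ?_⟩
  · exact ⟨((0 : ℕ) : ZMod m), Finset.mem_image.2 ⟨0, Finset.mem_range.2 (by omega), rfl⟩⟩
  · have hsub : A + A ⊆ (Finset.range (2 * s)).image (fun n : ℕ => (n : ZMod m)) := by
      intro z hz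
      obtain ⟨x, hx, y, hy, rfl⟩ := Finset.mem_add.1 hz
      obtain ⟨a, ha, rfl⟩ := Finset.mem_image.1 hx
      obtain ⟨b, hb, rfl⟩ := Finset.mem_image.1 hy
      rw [Finset.mem_range] at ha hb
      refine Finset.mem_image.2 ⟨a + b, Finset.mem_range.2 (by omega), by push_cast; ring⟩
    calc (A + A).card ≤ _ := Finset.card_le_card hsub
      _ ≤ (Finset.range (2 * s)).card := Finset.card_image_le
      _ = 2 * A.card := by rw [Finset.card_range, hcard]
  · intro H T hH hcov
    rw [hcard] at hH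
    choose! t ht hta using hcov
    have key : ∀ a b : ℕ, a < s → b < a → ((a : ZMod m) - (b : ZMod m)) ∉ H := by
      intro a b ha hb hmem
      have h1 : Nat.card H • (⟨_, hmem⟩ : H) = 0 := card_nsmul_eq_zero'
      have h2 : Nat.card H • ((a : ZMod m) - (b : ZMod m)) = 0 := by
        have h0 := congrArg Subtype.val h1
        rw [AddSubgroup.coe_nsmul, AddSubgroup.coe_zero] at h0
        exact h0
      have h3 : ((Nat.card H * (a - b) : ℕ) : ZMod m) = 0 := by
        rw [nsmul_eq_mul] at h2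
        rw [Nat.cast_mul, Nat.cast_sub hb.le]
        exact h2
      rw [ZMod.natCast_eq_zero_iff] at h3
      have h4 : 0 < Nat.card H := Nat.card_pos
      have h5 : 0 < Nat.card H * (a - b) := Nat.mul_pos h4 (by omega)
      have h6 := Nat.le_of_dvd h5 h3
      have h7 : Nat.card H * (a - b) < s * s := by
        calc Nat.card H * (a - b) ≤ s * (a - b) := Nat.mul_le_mul_right _ hH
          _ < s * s := Nat.mul_lt_mul_of_pos_left (by omega) (by omega)
      omega
    have hinj2 : Set.InjOn t (A : Set (ZMod m)) := by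
      intro x hx y hy hxy
      obtain ⟨a, ha, rfl⟩ := Finset.mem_image.1 hx
      obtain ⟨b, hb, rfl⟩ := Finset.mem_image.1 hy
      rw [Finset.mem_range] at ha hb
      have hH1 : ((a : ZMod m) - (b : ZMod m)) ∈ H := by
        have h2 := H.sub_mem (hta _ hx) (hta _ hy)
        rw [hxy] at h2
        simpa using h2
      have hH2 : ((b : ZMod m) - (a : ZMod m)) ∈ H := by
        have := H.neg_mem hH1
        rwa [neg_sub] at this
      rcases lt_trichotomy a b with h | h | h
      · exact absurd hH2 (key b a hb h)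
      · rw [h]
      · exact absurd hH1 (key a b ha h)
    have : A.card ≤ T.card := Finset.card_le_card_of_injOn t (fun a ha => ht a ha) hinj2
    rw [hcard] at this
    exact this

end W859.Tor
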