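import Pool.Agent.W859.Tor.Alg
set_option autoImplicit false

/-! The functional with a general parameter `η`, its minimiser, averaged minimality. -/

open scoped Classical

namespace W859.Tor

open H137.PFR

variable {Ω Ω' α β γ δ : Type*} [Fintype Ω] [Fintype Ω'] [Fintype α] [Fintype β] [Fintype γ]
  [Fintype δ]

variable {V : Type*} [AddCommGroup V] [Fintype V]

/-- the functional of Gowers, Green, Manners and Tao up to a constant -/
noncomputable def FF (η : ℝ) (μ₀ μ ν : V → ℝ) : ℝ :=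
  ent (conv μ ν) - (1 + η) / 2 * (ent μ + ent ν) + η * (ent (conv μ₀ μ) + ent (conv μ₀ ν))

theorem minF {η : ℝ} {μ₀ : V → ℝ} (h0 : Law μ₀) {t : ℝ}
    (ht : ∀ μ ν : V → ℝ, Law μ → Law ν → t ≤ FF η μ₀ μ ν)
    {w : Ω → ℝ} (hw : Law w) (X Y : Ω → V) (C : Ω → γ) (hCI : CI w X Y C) :
    t ≤ (H w (fun ω => (X ω + Y ω, C ω)) - H w C)
      - (1 + η) / 2 * ((H w (fun ω => (X ω, C ω)) - H w C) + (H w (fun ω => (Y ω, C ω)) - H w C))
      + η * ((E0 μ₀ w X C - H w C) + (E0 μ₀ w Y C - H w C)) := by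
  have hp := law_push hw C
  have e1 : H w (fun ω => (X ω + Y ω, C ω)) - H w C =
      ∑ c, push w C c * ent (conv (cnd w X C c) (cnd w Y C c)) := by
    rw [H_chain hw (fun ω => X ω + Y ω) C, add_sub_cancel_left]
    refine Finset.sum_congr rfl fun c _ => ?_
    by_cases hc : push w C c = 0
    · rw [hc, zero_mul, zero_mul]
    · rw [B_cnd_add X Y C hCI hc]
  have e2 : ∀ X : Ω → V, H w (fun ω => (X ω, C ω)) - H w C =
      ∑ c, push w C c * ent (cnd w X C c) := by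
    intro X
    rw [H_chain hw X C, add_sub_cancel_left]
  have e3 : ∀ X : Ω → V, E0 μ₀ w X C - H w C = ∑ c, push w C c * ent (conv μ₀ (cnd w X C c)) := by
    intro X
    unfold E0
    rw [H_chain (law_prod h0 hw) (fun p : V × Ω => p.1 + X p.2) (fun p => C p.2),
      H_prod_snd h0 hw C, add_sub_cancel_left]
    refine Finset.sum_congr rfl fun c _ => ?_
    rw [B_push_snd h0]
    by_cases hc : push w C c = 0
    · rw [hc, zero_mul, zero_mul]
    · rw [B_cnd_E0 h0 w X C hc]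
  have e5 : t = ∑ c, push w C c * t := by
    rw [← Finset.sum_mul, hp.2, one_mul]
  have e6 : ∑ c, push w C c * t ≤
      ∑ c, push w C c * FF η μ₀ (cnd w X C c) (cnd w Y C c) := by
    refine Finset.sum_le_sum fun c _ => ?_
    by_cases hc : push w C c = 0
    · rw [hc, zero_mul, zero_mul]
    · exact mul_le_mul_of_nonneg_left (ht _ _ (law_cnd hw X C hc) (law_cnd hw Y C hc)) (hp.1 c)
  rw [e1, e2, e2, e3, e3, e5]
  refine e6.trans (le_of_eq ?_)
  simp only [Finset.mul_sum, ← Finset.sum_sub_distrib, ← Finset.sum_add_distrib]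
  refine Finset.sum_congr rfl fun c _ => ?_
  unfold FF
  ring

theorem minF_prod {η : ℝ} {μ₀ : V → ℝ} (h0 : Law μ₀) {t : ℝ}
    (ht : ∀ μ ν : V → ℝ, Law μ → Law ν → t ≤ FF η μ₀ μ ν)
    {w : Ω → ℝ} {w' : Ω' → ℝ} (hw : Law w) (hw' : Law w') (X : Ω → V) (C : Ω → γ)
    (Y : Ω' → V) (C' : Ω' → δ) :
    t ≤ (H (prod w w') (fun p => (X p.1 + Y p.2, (C p.1, C' p.2))) - H w C - H w' C')
      - (1 + η) / 2 * ((H w (fun ω => (X ω, C ω)) - H w C) +
          (H w' (fun ω => (Y ω, C' ω)) - H w' C'))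
      + η * ((E0 μ₀ w X C - H w C) + (E0 μ₀ w' Y C' - H w' C')) := by
  have hm := minF h0 ht (law_prod hw hw') (fun p => X p.1) (fun p => Y p.2)
    (fun p => (C p.1, C' p.2)) (CI_prod X C Y C')
  rw [E0_prod_fst h0 hw hw' X C C', E0_prod_snd h0 hw hw' Y C C'] at hm
  have e1 : H (prod w w') (fun p => (C p.1, C' p.2)) = H w C + H w' C' := H_prod hw hw' C C'
  have e2 : H (prod w w') (fun p => (X p.1, (C p.1, C' p.2))) =
      H w (fun ω => (X ω, C ω)) + H w' C' := by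
    rw [← H_prod hw hw' (fun ω => (X ω, C ω)) C']
    exact H_eq (law_prod hw hw') (fun q => ((q.1, q.2.1), q.2.2)) (fun q => (q.1.1, (q.1.2, q.2)))
      (fun _ => rfl) (fun _ => rfl)
  have e3 : H (prod w w') (fun p => (Y p.2, (C p.1, C' p.2))) =
      H w C + H w' (fun ω => (Y ω, C' ω)) := by
    rw [← H_prod hw hw' C (fun ω => (Y ω, C' ω))]
    exact H_eq (law_prod hw hw') (fun q => (q.2.1, (q.1, q.2.2))) (fun q => (q.2.1, (q.1, q.2.2)))
      (fun _ => rfl) (fun _ => rfl)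
  rw [e1, e2, e3] at hm
  linarith

theorem exists_minF (η : ℝ) (μ₀ : V → ℝ) : ∃ μ₁ μ₂ : V → ℝ, Law μ₁ ∧ Law μ₂ ∧
    ∀ μ ν : V → ℝ, Law μ → Law ν → FF η μ₀ μ₁ μ₂ ≤ FF η μ₀ μ ν := by
  have hc : IsCompact ((stdSimplex ℝ V) ×ˢ (stdSimplex ℝ V)) :=
    (isCompact_stdSimplex ℝ V).prod (isCompact_stdSimplex ℝ V)
  have hne : ((stdSimplex ℝ V) ×ˢ (stdSimplex ℝ V)).Nonempty :=
    ⟨(Pi.single 0 1, Pi.single 0 1), single_mem_stdSimplex ℝ 0, single_mem_stdSimplex ℝ 0⟩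
  have hcont : Continuous (fun p : (V → ℝ) × (V → ℝ) => FF η μ₀ p.1 p.2) := by
    unfold FF
    have h0 : Continuous (fun _ : (V → ℝ) × (V → ℝ) => μ₀) := continuous_const
    exact ((D_continuous_ent (D_continuous_conv continuous_fst continuous_snd)).sub
      (((D_continuous_ent continuous_fst).add
        (D_continuous_ent continuous_snd)).const_mul _)).add
      (((D_continuous_ent (D_continuous_conv h0 continuous_fst)).add
        (D_continuous_ent (D_continuous_conv h0 continuous_snd))).const_mul _)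
  obtain ⟨p, hp, hmin⟩ := hc.exists_isMinOn hne hcont.continuousOn
  refine ⟨p.1, p.2, (D_law_iff _).2 hp.1, (D_law_iff _).2 hp.2, fun μ ν hμ hν => ?_⟩
  exact hmin (a := (μ, ν)) ⟨(D_law_iff _).1 hμ, (D_law_iff _).1 hν⟩

/-- a minimising pair, with all parameters -/
structure Mn (V : Type*) [AddCommGroup V] [Fintype V] where
  /-- the parameter -/
  η : ℝ
  hη : 0 ≤ η
  /-- the reference law -/
  μ₀ : V → ℝ
  h0 : Law μ₀
  /-- first minimiser -/
  p₁ : M V
  /-- second minimiser -/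
  p₂ : M V
  l₁ : H112.Law p₁
  l₂ : H112.Law p₂
  hmin : ∀ μ ν : V → ℝ, Law μ → Law ν → FF η μ₀ (cf p₁) (cf p₂) ≤ FF η μ₀ μ ν

namespace Mn

variable (c : Mn V)

/-- the sum of the two minimisers -/
noncomputable def q : M V := c.p₁ * c.p₂

/-- average entropy -/
noncomputable def h : ℝ := (H112.H c.p₁ + H112.H c.p₂) / 2

/-- the distance -/
noncomputable def k : ℝ := H112.H c.q - c.h

/-- `H(X₀+X₁)` -/
noncomputable def E₁ : ℝ := ent (conv c.μ₀ (cf c.p₁))

/-- `H(X₀+X₂)` -/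
noncomputable def E₂ : ℝ := ent (conv c.μ₀ (cf c.p₂))

theorem lq : H112.Law c.q := c.l₁.mul c.l₂

theorem val : FF c.η c.μ₀ (cf c.p₁) (cf c.p₂) = c.k - c.η * c.h + c.η * (c.E₁ + c.E₂) := by
  unfold FF k h E₁ E₂ q
  rw [← cf_mul, ent_cf, ent_cf, ent_cf]
  ring

theorem k_nonneg : 0 ≤ c.k := by
  unfold k h q
  have h1 := H112.H_le_mul c.l₁ c.l₂
  have h2 := H112.H_le_mul c.l₂ c.l₁
  rw [mul_comm] at h2
  linarith

theorem min_prod {w : Ω → ℝ} {w' : Ω' → ℝ} (hw : Law w) (hw' : Law w') (X : Ω → V) (C : Ω → γ)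
    (Y : Ω' → V) (C' : Ω' → δ) :
    c.k - c.η * c.h + c.η * (c.E₁ + c.E₂) ≤
      (H (prod w w') (fun p => (X p.1 + Y p.2, (C p.1, C' p.2))) - H w C - H w' C')
      - (1 + c.η) / 2 * ((H w (fun ω => (X ω, C ω)) - H w C) +
          (H w' (fun ω => (Y ω, C' ω)) - H w' C'))
      + c.η * ((E0 c.μ₀ w X C - H w C) + (E0 c.μ₀ w' Y C' - H w' C')) := by
  rw [← c.val]
  exact minF_prod c.h0 c.hmin hw hw' X C Y C'

end Mn

end W859.Tor
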