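import Pool.Agent.W859.Tor.Min
set_option autoImplicit false
set_option linter.unusedSectionVars false

/-! Upper bounds: adding copies of the minimiser. -/

open scoped Classical

namespace W859.Tor

open H137.PFR

theorem H_direct {V W G : Type*} [AddCommGroup V] [Fintype V] [AddCommGroup W] [Fintype W]
    [AddCommGroup G] [Fintype G] (φ : V →+ G) (ψ : W →+ G)
    (hinj : ∀ x y, φ x + ψ y = 0 → x = 0 ∧ y = 0) {a : M V} {b : M W} (ha : H112.Law a)
    (hb : H112.Law b) : H112.H (mp φ a * mp ψ b) = H112.H a + H112.H b := by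
  have hla := law_cf ha
  have hlb := law_cf hb
  have h1 : mp φ a * mp ψ b = mp (φ.coprod ψ) (lw (prod (cf a) (cf b)) (fun p => p)) := by
    rw [mp_lw, ← lw_hom φ a, ← lw_hom ψ b, ← lw_add]
    rfl
  rw [h1, H_mp_inj]
  · rw [← H_lw]
    have h2 := H_prod hla hlb (fun x => x) (fun x => x)
    rw [H_lw (cf a), H_lw (cf b), lw_cf, lw_cf] at h2
    exact h2
  · rw [injective_iff_map_eq_zero]
    intro p hp
    obtain ⟨h1, h2⟩ := hinj p.1 p.2 hp
    exact Prod.ext h1 h2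

namespace Mn

variable {V : Type*} [AddCommGroup V] [Fintype V] (c : Mn V)
variable {G : Type*} [AddCommGroup G] [Fintype G]

theorem H_q : H112.H c.q = c.h + c.k := by unfold k; ring

theorem star (φ : V →+ G) {b₁ b₂ : M G} (hb₁ : H112.Law b₁) (hb₂ : H112.Law b₂) :
    H112.H ((mp φ c.p₁ * b₁) * (mp φ c.p₂ * b₂)) - H112.H (b₁ * b₂) ≤
      (1 + c.η) / 2 * ((H112.H (mp φ c.p₁ * b₁) - H112.H b₁) +
        (H112.H (mp φ c.p₂ * b₂) - H112.H b₂)) := by
  have l1 := law_cf c.l₁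
  have l2 := law_cf c.l₂
  have m1 := law_cf hb₁
  have m2 := law_cf hb₂
  have hw1 := law_prod l1 m1
  have hw2 := law_prod l2 m2
  have hw := law_prod hw1 hw2
  have hm := c.min_prod hw1 hw2 (fun x : V × G => x.1) (fun x => φ x.1 + x.2)
    (fun x : V × G => x.1) (fun x => φ x.1 + x.2)
  have hC : ∀ (p : M V) (b : M G), lw (prod (cf p) (cf b)) (fun x : V × G => φ x.1 + x.2) =
      mp φ p * b := by
    intro p b
    have h1 := lw_add (w := cf p) (w' := cf b) (fun x => φ x) (fun x => x)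
    rw [lw_hom, lw_cf] at h1
    exact h1
  have hCH : ∀ (p : M V) (b : M G), H (prod (cf p) (cf b)) (fun x : V × G => φ x.1 + x.2) =
      H112.H (mp φ p * b) := by
    intro p b
    rw [H_lw, hC]
  have hXC : ∀ {p : M V} {b : M G}, H112.Law p → H112.Law b →
      H (prod (cf p) (cf b)) (fun x : V × G => (x.1, φ x.1 + x.2)) = H112.H p + H112.H b := by
    intro p b hp hb
    have h1 := H_prod (law_cf hp) (law_cf hb) (fun x => x) (fun x => x)
    rw [H_lw (cf p), H_lw (cf b), lw_cf, lw_cf] at h1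
    rw [← h1]
    exact H_eq (law_prod (law_cf hp) (law_cf hb)) (fun q => (q.1, q.2 - φ q.1))
      (fun q => (q.1, φ q.1 + q.2)) (fun x => by simp) (fun x => rfl)
  have hE1 := E0_le_of_law c.h0 hw1 (fun x : V × G => x.1) (fun x => φ x.1 + x.2)
    (push_fst m1)
  have hE2 := E0_le_of_law c.h0 hw2 (fun x : V × G => x.1) (fun x => φ x.1 + x.2)
    (push_fst m2)
  have hs := H_submod hw (fun p : (V × G) × (V × G) => p.1.1 + p.2.1)
    (fun p => (φ p.1.1 + p.1.2, φ p.2.1 + p.2.2))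
    (fun p => (φ p.1.1 + p.1.2) + (φ p.2.1 + p.2.2))
  have s1 : H (prod (prod (cf c.p₁) (cf b₁)) (prod (cf c.p₂) (cf b₂)))
      (fun p : (V × G) × (V × G) => (p.1.1 + p.2.1, (φ p.1.1 + p.1.2, φ p.2.1 + p.2.2),
        (φ p.1.1 + p.1.2) + (φ p.2.1 + p.2.2))) =
      H (prod (prod (cf c.p₁) (cf b₁)) (prod (cf c.p₂) (cf b₂)))
      (fun p : (V × G) × (V × G) => (p.1.1 + p.2.1, (φ p.1.1 + p.1.2, φ p.2.1 + p.2.2))) :=
    H_eq hw (fun q => (q.1, q.2.1)) (fun q => (q.1, q.2, q.2.1 + q.2.2)) (fun _ => rfl)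
      (fun _ => rfl)
  have s2 : H (prod (prod (cf c.p₁) (cf b₁)) (prod (cf c.p₂) (cf b₂)))
      (fun p : (V × G) × (V × G) => ((φ p.1.1 + p.1.2, φ p.2.1 + p.2.2),
        (φ p.1.1 + p.1.2) + (φ p.2.1 + p.2.2))) =
      H112.H (mp φ c.p₁ * b₁) + H112.H (mp φ c.p₂ * b₂) := by
    have h1 := H_prod hw1 hw2 (fun x : V × G => φ x.1 + x.2) (fun x : V × G => φ x.1 + x.2)
    rw [hCH, hCH] at h1
    rw [← h1]
    exact H_eq hw (fun q => q.1) (fun q => (q, q.1 + q.2)) (fun _ => rfl) (fun _ => rfl)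
  have s3 : H (prod (prod (cf c.p₁) (cf b₁)) (prod (cf c.p₂) (cf b₂)))
      (fun p : (V × G) × (V × G) => (φ p.1.1 + p.1.2) + (φ p.2.1 + p.2.2)) =
      H112.H ((mp φ c.p₁ * b₁) * (mp φ c.p₂ * b₂)) := by
    have h1 := H_lw_add (w := prod (cf c.p₁) (cf b₁)) (w' := prod (cf c.p₂) (cf b₂))
      (fun x : V × G => φ x.1 + x.2) (fun x : V × G => φ x.1 + x.2)
    rw [hC, hC] at h1
    exact h1
  have s4 : H (prod (prod (cf c.p₁) (cf b₁)) (prod (cf c.p₂) (cf b₂)))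
      (fun p : (V × G) × (V × G) => (p.1.1 + p.2.1, (φ p.1.1 + p.1.2) + (φ p.2.1 + p.2.2))) ≤
      H112.H c.q + H112.H (b₁ * b₂) := by
    have h1 : H (prod (prod (cf c.p₁) (cf b₁)) (prod (cf c.p₂) (cf b₂)))
      (fun p : (V × G) × (V × G) => (p.1.1 + p.2.1, (φ p.1.1 + p.1.2) + (φ p.2.1 + p.2.2))) =
      H (prod (prod (cf c.p₁) (cf b₁)) (prod (cf c.p₂) (cf b₂)))
      (fun p : (V × G) × (V × G) => (p.1.1 + p.2.1, p.1.2 + p.2.2)) :=
      H_eq hw (fun q => (q.1, q.2 - φ q.1)) (fun q => (q.1, φ q.1 + q.2))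
        (fun p => by
          refine Prod.ext rfl ?_
          simp only [map_add]
          abel)
        (fun p => by
          refine Prod.ext rfl ?_
          simp only [map_add]
          abel)
    rw [h1]
    refine (H_subadd hw _ _).trans (le_of_eq ?_)
    have h2 : lw (prod (cf c.p₁) (cf b₁)) (fun x : V × G => x.1) = c.p₁ := by
      apply cf_injective
      rw [cf_lw, push_fst m1]
    have h3 : lw (prod (cf c.p₂) (cf b₂)) (fun x : V × G => x.1) = c.p₂ := by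
      apply cf_injective
      rw [cf_lw, push_fst m2]
    have h4 : lw (prod (cf c.p₁) (cf b₁)) (fun x : V × G => x.2) = b₁ := by
      apply cf_injective
      rw [cf_lw, push_snd l1]
    have h5 : lw (prod (cf c.p₂) (cf b₂)) (fun x : V × G => x.2) = b₂ := by
      apply cf_injective
      rw [cf_lw, push_snd l2]
    rw [H_lw_add (fun x : V × G => x.1) (fun x : V × G => x.1), h2, h3,
      H_lw_add (fun x : V × G => x.2) (fun x : V × G => x.2), h4, h5]
    rfl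
  rw [s1, s2, s3] at hs
  rw [hCH, hCH, hXC c.l₁ hb₁, hXC c.l₂ hb₂] at hm
  rw [hCH] at hE1 hE2
  have hE1' : c.η * (E0 c.μ₀ (prod (cf c.p₁) (cf b₁)) (fun x => x.1) (fun x => φ x.1 + x.2) -
      H112.H (mp φ c.p₁ * b₁)) ≤ c.η * c.E₁ := mul_le_mul_of_nonneg_left hE1 c.hη
  have hE2' : c.η * (E0 c.μ₀ (prod (cf c.p₂) (cf b₂)) (fun x => x.1) (fun x => φ x.1 + x.2) -
      H112.H (mp φ c.p₂ * b₂)) ≤ c.η * c.E₂ := mul_le_mul_of_nonneg_left hE2 c.hη
  have hq := c.H_q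
  have hh : c.h = (H112.H c.p₁ + H112.H c.p₂) / 2 := rfl
  have e1 : (1 + c.η) / 2 * ((H112.H c.p₁ + H112.H b₁ - H112.H (mp φ c.p₁ * b₁)) +
      (H112.H c.p₂ + H112.H b₂ - H112.H (mp φ c.p₂ * b₂))) =
      (1 + c.η) * c.h - (1 + c.η) / 2 * ((H112.H (mp φ c.p₁ * b₁) - H112.H b₁) +
        (H112.H (mp φ c.p₂ * b₂) - H112.H b₂)) := by rw [hh]; ring
  rw [e1] at hm
  linarith

theorem star2 (φ : V →+ G) {b : M G} (hb : H112.Law b) :
    H112.H ((mp φ c.q * b) * (mp φ c.q * b)) - H112.H (b * b) ≤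
      (1 + c.η) * (H112.H (mp φ c.q * b) - H112.H b) := by
  have h1 := c.star φ hb hb
  have h2 := c.star φ ((mp_law φ c.l₂).mul hb) ((mp_law φ c.l₁).mul hb)
  have e0 : mp φ c.q = mp φ c.p₁ * mp φ c.p₂ := map_mul _ _ _
  have e1 : mp φ c.p₁ * (mp φ c.p₂ * b) = mp φ c.q * b := by rw [e0]; ring
  have e2 : mp φ c.p₂ * (mp φ c.p₁ * b) = mp φ c.q * b := by rw [e0]; ring
  have e3 : mp φ c.p₂ * b * (mp φ c.p₁ * b) = mp φ c.p₁ * b * (mp φ c.p₂ * b) := by ring
  rw [e1, e2, e3] at h2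
  linarith

/-- upper bound for the doubling, `s` is the number of coordinates -/
def UB (s : ℝ) (b : M G) : Prop :=
  H112.Law b ∧ H112.H (b * b) ≤ (1 + c.η) * H112.H b + s * (c.k - c.η * c.h)

theorem UB_q : c.UB 1 c.q := by
  refine ⟨c.lq, ?_⟩
  have h1 := c.star (AddMonoidHom.id V) c.l₂ c.l₁
  rw [mp_id, mp_id] at h1
  have e1 : c.p₂ * c.p₁ = c.q := by rw [mul_comm]; rfl
  have e2 : c.p₁ * c.p₂ = c.q := rfl
  rw [e1, e2] at h1
  have hq := c.H_q
  have hh : c.h = (H112.H c.p₁ + H112.H c.p₂) / 2 := rfl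
  have e3 : (1 + c.η) / 2 * ((H112.H c.q - H112.H c.p₂) + (H112.H c.q - H112.H c.p₁)) =
      (1 + c.η) * (H112.H c.q - c.h) := by rw [hh]; ring
  rw [e3] at h1
  rw [hq] at h1 ⊢
  linarith

theorem UB_step (φ : V →+ G) {s : ℝ} {b : M G} (hb : c.UB s b) : c.UB s (mp φ c.q * b) := by
  refine ⟨(mp_law φ c.lq).mul hb.1, ?_⟩
  have h1 := c.star2 φ hb.1
  have h2 := hb.2
  linarith

theorem UB_prod {ι : Type*} (I : Finset ι) (φ : ι → V →+ G) {s : ℝ} {b : M G} (hb : c.UB s b) :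
    c.UB s ((∏ i ∈ I, mp (φ i) c.q) * b) := by
  induction I using Finset.induction_on with
  | empty => simpa using hb
  | insert i I hi ih =>
    rw [Finset.prod_insert hi, mul_assoc]
    exact c.UB_step (φ i) ih

theorem UB_base2 (φ ψ : V →+ G) (hinj : ∀ x y, φ x + ψ y = 0 → x = 0 ∧ y = 0) :
    c.UB 2 (mp φ c.q * mp ψ c.q) := by
  refine ⟨(mp_law φ c.lq).mul (mp_law ψ c.lq), ?_⟩
  have e1 : mp φ c.q * mp ψ c.q * (mp φ c.q * mp ψ c.q) = mp φ (c.q * c.q) * mp ψ (c.q * c.q) := by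
    rw [map_mul, map_mul]; ring
  rw [e1, H_direct φ ψ hinj (c.lq.mul c.lq) (c.lq.mul c.lq), H_direct φ ψ hinj c.lq c.lq]
  have := c.UB_q.2
  linarith

theorem UB_pow {n : ℕ} (hn : 1 ≤ n) : c.UB 1 (c.q ^ n) := by
  induction n, hn using Nat.le_induction with
  | base => rw [pow_one]; exact c.UB_q
  | succ n hn ih =>
    have h1 := c.UB_step (AddMonoidHom.id V) ih
    rw [mp_id] at h1
    rw [pow_succ, mul_comm]
    exact h1

theorem law_prod_mp {ι : Type*} (I : Finset ι) (φ : ι → V →+ G) :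
    H112.Law (∏ i ∈ I, mp (φ i) c.q) := by
  induction I using Finset.induction_on with
  | empty => simpa using H112.Law.one
  | insert i I hi ih =>
    rw [Finset.prod_insert hi]
    exact (mp_law _ c.lq).mul ih

end Mn

end W859.Tor
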